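import Pool.Graph.R_pool_sql_team_seeded_5cf16337.K3h93.EF.Lim

/-!
# Prediction of the ground states from a window
-/

set_option autoImplicit false
set_option linter.unusedSectionVars false

open MeasureTheory Measure Filter Topology

namespace Pool.Agent.Helper24.EA

open Pool.Agent.K3h93.EA Pool.Agent.K3h93.EF

variable {μ : Measure ℝ} [IsProbabilityMeasure μ]

/-- prediction rules with a finite window -/
structure Rl (F : Finset E) (f : (E → ℝ) → ℝ) : Prop where
  meas : Measurable f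
  pm : ∀ J, f J = 1 ∨ f J = -1
  dep : Dep (F : Set E) f

lemma Rl.abs {F : Finset E} {f : (E → ℝ) → ℝ} (h : Rl F f) (J : E → ℝ) : |f J| = 1 := by
  rcases h.pm J with h | h <;> rw [h] <;> norm_num

lemma Rl.lo {F : Finset E} {f : (E → ℝ) → ℝ} (h : Rl F f) : Lo F f :=
  ⟨h.meas, fun J => (h.abs J).le, h.dep⟩

/-- the average probability that the rules `f a` fail -/
noncomputable def Fl (μ : Measure ℝ) (e : E) (f : V → (E → ℝ) → ℝ) (s : (E → ℝ) → V → ℝ)
    (n : ℕ) : ℝ :=
  (∑ a ∈ pos n, (infinitePi fun _ : E => μ).real {J | f a (sh a J) ≠ bp (s J) (st a e)}) /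
    (n : ℝ) ^ 2

/-- the average probability of a disagreement -/
noncomputable def Ds (μ : Measure ℝ) (e : E) (s s' : (E → ℝ) → V → ℝ) (n : ℕ) : ℝ :=
  (∑ a ∈ pos n, (infinitePi fun _ : E => μ).real {J | bp (s J) (st a e) ≠ bp (s' J) (st a e)}) /
    (n : ℝ) ^ 2

lemma prob_ne {α : Type*} [MeasurableSpace α] (P : Measure α) [IsProbabilityMeasure P]
    {u v : α → ℝ} (hu : Measurable u) (hv : Measurable v) (hu1 : ∀ᵐ x ∂P, u x = 1 ∨ u x = -1)
    (hv1 : ∀ᵐ x ∂P, v x = 1 ∨ v x = -1) : P.real {x | u x ≠ v x} = (1 - ∫ x, u x * v x ∂P) / 2 := by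
  have hm : MeasurableSet {x | u x ≠ v x} := (measurableSet_eq_fun hu hv).compl
  have h1 : ∫ x, (1 - u x * v x) / 2 ∂P = ∫ x, Set.indicator {x | u x ≠ v x} (fun _ => (1 : ℝ)) x ∂P := by
    refine integral_congr_ae ?_
    filter_upwards [hu1, hv1] with x hx hy
    by_cases h : u x = v x
    · rw [Set.indicator_of_notMem (by simpa using h), ← h]
      rcases hx with hx | hx <;> rw [hx] <;> norm_num
    · rw [Set.indicator_of_mem (by simpa using h)]
      rcases hx with hx | hx <;> rcases hy with hy | hy <;> rw [hx, hy] at h ⊢ <;>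
        first | (exact absurd rfl h) | norm_num
  have hi : Integrable (fun x => u x * v x) P := by
    refine Integrable.of_bound (hu.mul hv).aestronglyMeasurable 1 ?_
    filter_upwards [hu1, hv1] with x hx hy
    rcases hx with hx | hx <;> rcases hy with hy | hy <;> rw [hx, hy] <;> norm_num
  rw [integral_indicator hm, setIntegral_const, smul_eq_mul, mul_one] at h1
  rw [← h1, integral_div, integral_sub (integrable_const _) hi, integral_const, probReal_univ,
    one_smul]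

lemma spin_ae_bp {s : (E → ℝ) → V → ℝ} (hs : ∀ᵐ J ∂(infinitePi fun _ : E => μ), Spin (s J))
    (e : E) : ∀ᵐ J ∂(infinitePi fun _ : E => μ), bp (s J) e = 1 ∨ bp (s J) e = -1 :=
  hs.mono fun _ h => h.bp_cases e

lemma fail_eq {F : Finset E} {f : (E → ℝ) → ℝ} (hf : Rl F f) {s : (E → ℝ) → V → ℝ}
    (hm : Measurable s) (hs : ∀ᵐ J ∂(infinitePi fun _ : E => μ), Spin (s J)) (e : E) (a : V) :
    (infinitePi fun _ : E => μ).real {J | f (sh a J) ≠ bp (s J) (st a e)} =
      (1 - PL μ f e s a) / 2 := by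
  unfold PL
  exact prob_ne _ (hf.meas.comp (measurable_sh a)) (bpm hm _)
    (Eventually.of_forall fun J => hf.pm _) (spin_ae_bp hs _)

/-- the universal function -/
structure Um (μ : Measure ℝ) [IsProbabilityMeasure μ] (e : E) (m : (E → ℝ) → ℝ) : Prop where
  meas : Measurable m
  le : ∀ J, |m J| ≤ 1
  univ : ∀ w σ, Sq μ w σ → ∀ (F : Finset E) (φ : ℕ → V → (E → ℝ) → ℝ), (∀ L a, Lo F (φ L a)) →
    Tendsto (fun L : ℕ => (∑ a ∈ pos L, |PL μ (φ L a) e (σ L) a -
      ∫ J, φ L a J * m J ∂(infinitePi fun _ : E => μ)|) / (L : ℝ) ^ 2) atTop (𝓝 0)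

lemma exists_Um (hμ : Integrable (fun x : ℝ => x) μ) (hat : ∀ x, μ {x} = 0) (e : E) :
    ∃ m, Um μ e m := by
  obtain ⟨m, h1, h2, h3⟩ := universal hμ hat e
  exact ⟨m, h1, h2, h3⟩

/-- the conditional expectation of the universal function -/
noncomputable def cm (μ : Measure ℝ) [IsProbabilityMeasure μ] (m : (E → ℝ) → ℝ) (F : Finset E) :
    (E → ℝ) → ℝ := CE μ (F : Set E) m

/-- the best rule -/
noncomputable def br (μ : Measure ℝ) [IsProbabilityMeasure μ] (m : (E → ℝ) → ℝ) (F : Finset E)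
    (J : E → ℝ) : ℝ := if 0 ≤ cm μ m F J then 1 else -1

/-- the error of the best rule -/
noncomputable def ka (μ : Measure ℝ) [IsProbabilityMeasure μ] (m : (E → ℝ) → ℝ) (F : Finset E) :
    ℝ := (1 - ∫ J, |cm μ m F J| ∂(infinitePi fun _ : E => μ)) / 2

/-- the limit error -/
noncomputable def ki (μ : Measure ℝ) (m : (E → ℝ) → ℝ) : ℝ :=
  (1 - ∫ J, |m J| ∂(infinitePi fun _ : E => μ)) / 2

variable {m : (E → ℝ) → ℝ} {e : E}

lemma Um.cm_meas (hm : Um μ e m) (F : Finset E) : Measurable (cm μ m F) := CE_meas μ hm.meas _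

lemma Um.cm_le (hm : Um μ e m) (F : Finset E) (J : E → ℝ) : |cm μ m F J| ≤ 1 :=
  CE_le μ hm.le _ J

lemma cm_dep (m : (E → ℝ) → ℝ) (F : Finset E) : Dep (F : Set E) (cm μ m F) := CE_dep μ _ _

lemma Um.br_rl (hm : Um μ e m) (F : Finset E) : Rl F (br μ m F) := by
  refine ⟨?_, fun J => ?_, fun J J' h => ?_⟩
  · exact Measurable.ite (measurableSet_le measurable_const (hm.cm_meas F)) measurable_const
      measurable_const
  · unfold br; split_ifs <;> simp
  · unfold br; rw [cm_dep m F J J' h]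

lemma br_mul (m : (E → ℝ) → ℝ) (F : Finset E) (J : E → ℝ) :
    cm μ m F J * br μ m F J = |cm μ m F J| := by
  unfold br
  split_ifs with h
  · rw [mul_one, abs_of_nonneg h]
  · rw [abs_of_neg (not_le.1 h)]; ring

lemma Um.int_rule (hm : Um μ e m) {F : Finset E} {f : (E → ℝ) → ℝ} (hf : Rl F f) :
    ∫ J, f J * m J ∂(infinitePi fun _ : E => μ) =
      ∫ J, cm μ m F J * f J ∂(infinitePi fun _ : E => μ) := by
  unfold cm
  rw [CE_mul μ hm.meas hm.le hf.meas (fun J => (hf.abs J).le) hf.dep]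
  exact integral_congr_ae (Eventually.of_forall fun J => mul_comm _ _)

lemma Um.int_br (hm : Um μ e m) (F : Finset E) :
    ∫ J, br μ m F J * m J ∂(infinitePi fun _ : E => μ) =
      ∫ J, |cm μ m F J| ∂(infinitePi fun _ : E => μ) := by
  rw [hm.int_rule (hm.br_rl F)]
  exact integral_congr_ae (Eventually.of_forall fun J => br_mul m F J)

lemma Um.int_le (hm : Um μ e m) {F : Finset E} {f : (E → ℝ) → ℝ} (hf : Rl F f) :
    ∫ J, f J * m J ∂(infinitePi fun _ : E => μ) ≤
      ∫ J, |cm μ m F J| ∂(infinitePi fun _ : E => μ) := by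
  rw [hm.int_rule hf]
  refine integral_mono (int_bdd μ ((hm.cm_meas F).mul hf.meas) (C := 1) fun J => ?_)
    (int_bdd μ (hm.cm_meas F).abs (C := 1) fun J => by rw [abs_abs]; exact hm.cm_le F J)
    fun J => ?_
  · rw [abs_mul, hf.abs, mul_one]; exact hm.cm_le F J
  · refine (le_abs_self _).trans ?_
    rw [abs_mul, hf.abs, mul_one]

lemma Rl.mono {F F' : Finset E} (h : F ⊆ F') {f : (E → ℝ) → ℝ} (hf : Rl F f) : Rl F' f :=
  ⟨hf.meas, hf.pm, fun J J' hJ => hf.dep J J' fun e he => hJ e (by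
    rw [Finset.mem_coe] at he ⊢; exact h he)⟩

lemma Um.mono (hm : Um μ e m) {F F' : Finset E} (h : F ⊆ F') : ka μ m F' ≤ ka μ m F := by
  have h1 := hm.int_le ((hm.br_rl F).mono h)
  rw [hm.int_br F] at h1
  unfold ka
  linarith

lemma Um.ki_le (hm : Um μ e m) (F : Finset E) : ki μ m ≤ ka μ m F := by
  have h1 : ∫ J, br μ m F J * m J ∂(infinitePi fun _ : E => μ) ≤
      ∫ J, |m J| ∂(infinitePi fun _ : E => μ) := by
    refine integral_mono (int_bdd μ ((hm.br_rl F).meas.mul hm.meas) (C := 1) fun J => ?_)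
      (int_bdd μ hm.meas.abs (C := 1) fun J => by rw [abs_abs]; exact hm.le J) fun J => ?_
    · rw [abs_mul, (hm.br_rl F).abs, one_mul]; exact hm.le J
    · refine (le_abs_self _).trans ?_
      rw [abs_mul, (hm.br_rl F).abs, one_mul]
  rw [hm.int_br F] at h1
  unfold ki ka
  linarith

lemma Um.ki_nonneg (hm : Um μ e m) : 0 ≤ ki μ m := by
  have h1 : ∫ J, |m J| ∂(infinitePi fun _ : E => μ) ≤ ∫ _J, (1 : ℝ) ∂(infinitePi fun _ : E => μ) :=
    integral_mono (int_bdd μ hm.meas.abs (C := 1) fun J => by rw [abs_abs]; exact hm.le J)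
      (integrable_const _) hm.le
  rw [integral_const, probReal_univ, one_smul] at h1
  unfold ki
  linarith

lemma ka_le (m : (E → ℝ) → ℝ) (F : Finset E) : ka μ m F ≤ 1 / 2 := by
  unfold ka
  have : 0 ≤ ∫ J, |cm μ m F J| ∂(infinitePi fun _ : E => μ) := integral_nonneg fun _ => abs_nonneg _
  linarith

lemma Um.ka_tendsto (hm : Um μ e m) : Tendsto (ka μ m) atTop (𝓝 (ki μ m)) := by
  have h1 := approx μ hm.meas hm.le (I := fun M => ((bM M : Finset E) : Set E)) bM_exhaust
  rw [Metric.tendsto_atTop] at h1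
  rw [Metric.tendsto_atTop]
  intro ε hε
  obtain ⟨M, hM⟩ := h1 ε hε
  refine ⟨bM M, fun F hF => ?_⟩
  have h2 := hM M le_rfl
  rw [Real.dist_eq, sub_zero] at h2
  have h3 := (abs_le.1 h2.le).2
  have h3' := lt_of_abs_lt h2
  set P := infinitePi fun _ : E => μ with hP
  -- the distance between `m` and its conditional expectation
  have mp : Measurable fun p : (E → ℝ) × (E → ℝ) =>
      m (patch ((bM M : Finset E) : Set E)ᶜ p.1 p.2) := hm.meas.comp (measurable_patch _)
  have i1 : Integrable (fun p : (E → ℝ) × (E → ℝ) =>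
      |m p.1 - m (patch ((bM M : Finset E) : Set E)ᶜ p.1 p.2)|) (P.prod P) :=
    pp_bdd μ ((hm.meas.comp measurable_fst).sub mp).abs (C := 1 + 1) fun p => by
      rw [abs_abs]; exact (abs_sub _ _).trans (add_le_add (hm.le _) (hm.le _))
  have h4 : ∫ J, |m J - cm μ m (bM M) J| ∂P ≤
      ∫ p, |m p.1 - m (patch ((bM M : Finset E) : Set E)ᶜ p.1 p.2)| ∂(P.prod P) := by
    rw [integral_prod _ i1]
    refine integral_mono (int_bdd μ (hm.meas.sub (hm.cm_meas _)).abs (C := 1 + 1) fun J => by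
      rw [abs_abs]; exact (abs_sub _ _).trans (add_le_add (hm.le _) (hm.cm_le _ _)))
      i1.integral_prod_left fun J => ?_
    simp only
    have mJ : Measurable fun y => m (patch ((bM M : Finset E) : Set E)ᶜ J y) :=
      mp.comp (measurable_const.prodMk measurable_id)
    have iJ : Integrable (fun y => m (patch ((bM M : Finset E) : Set E)ᶜ J y)) P :=
      int_bdd μ mJ fun y => hm.le _
    have e1 : m J - cm μ m (bM M) J =
        ∫ y, (m J - m (patch ((bM M : Finset E) : Set E)ᶜ J y)) ∂P := by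
      rw [integral_sub (integrable_const _) iJ, integral_const, probReal_univ, one_smul]
      rfl
    rw [e1]
    exact abs_integral_le_integral_abs
  have h5 : ∫ J, |m J| ∂P ≤ ∫ J, |cm μ m (bM M) J| ∂P + ∫ J, |m J - cm μ m (bM M) J| ∂P := by
    have iA : Integrable (fun J => |cm μ m (bM M) J|) P :=
      int_bdd μ (hm.cm_meas _).abs (C := 1) fun J => by rw [abs_abs]; exact hm.cm_le _ J
    have iB : Integrable (fun J => |m J - cm μ m (bM M) J|) P :=
      int_bdd μ (hm.meas.sub (hm.cm_meas _)).abs (C := 1 + 1) fun J => by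
        rw [abs_abs]; exact (abs_sub _ _).trans (add_le_add (hm.le _) (hm.cm_le _ _))
    rw [← integral_add iA iB]
    refine integral_mono (int_bdd μ hm.meas.abs (C := 1) fun J => by rw [abs_abs]; exact hm.le J)
      (iA.add iB) fun J => ?_
    have h6 := abs_add_le (cm μ m (bM M) J) (m J - cm μ m (bM M) J)
    simp only
    rwa [add_sub_cancel] at h6
  have h6 := hm.ki_le F
  have h7 := hm.mono (F := bM M) (F' := F) hF
  rw [Real.dist_eq, abs_of_nonneg (by linarith)]
  have h8 : ka μ m (bM M) ≤ ki μ m + ε / 2 := by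
    unfold ka ki
    linarith
  linarith

/-! ### The error of the rules -/

variable {w w' : ℕ → (E → ℝ) → (V → ℝ) → ℝ} {σ σ' : ℕ → (E → ℝ) → V → ℝ}

lemma Um.fail_tendsto (hm : Um μ e m) (hs : Sq μ w σ) {F : Finset E}
    {g : ℕ → V → (E → ℝ) → ℝ} (hg : ∀ n a, Rl F (g n a)) :
    Tendsto (fun n : ℕ => Fl μ e (g n) (σ n) n - (∑ a ∈ pos n,
      (1 - ∫ J, g n a J * m J ∂(infinitePi fun _ : E => μ)) / 2) / (n : ℝ) ^ 2) atTop (𝓝 0) := by
  have h1 := hm.univ w σ hs F g fun n a => (hg n a).lo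
  refine squeeze_zero_norm (fun n => ?_) h1
  unfold Fl
  rw [← sub_div, ← Finset.sum_sub_distrib, norm_div, norm_pow, Real.norm_natCast]
  refine div_le_div_of_nonneg_right ?_ (sq_nonneg _)
  refine (norm_sum_le _ _).trans (Finset.sum_le_sum fun a _ => ?_)
  rw [fail_eq (hg n a) (hs.meas n) (hs.spin n) e a, Real.norm_eq_abs]
  have e1 : (1 - PL μ (g n a) e (σ n) a) / 2 -
      (1 - ∫ J, g n a J * m J ∂(infinitePi fun _ : E => μ)) / 2 =
      -((PL μ (g n a) e (σ n) a - ∫ J, g n a J * m J ∂(infinitePi fun _ : E => μ)) / 2) := by ring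
  rw [e1, abs_neg, abs_div, abs_two]
  have := abs_nonneg (PL μ (g n a) e (σ n) a -
    ∫ J, g n a J * m J ∂(infinitePi fun _ : E => μ))
  linarith

lemma avg_const {n : ℕ} (hn : 1 ≤ n) (c : ℝ) : (∑ _a ∈ pos n, c) / (n : ℝ) ^ 2 = c := by
  rw [Finset.sum_const, card_pos, nsmul_eq_mul]
  have : (n : ℝ) ≠ 0 := by positivity
  push_cast
  field_simp

/-- the best rule -/
lemma Um.br_tendsto (hm : Um μ e m) (hs : Sq μ w σ) (F : Finset E) :
    Tendsto (fun n : ℕ => Fl μ e (fun _ => br μ m F) (σ n) n) atTop (𝓝 (ka μ m F)) := by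
  have h1 := hm.fail_tendsto hs (g := fun _ _ => br μ m F) (fun _ _ => hm.br_rl F)
  have h2 := h1.add_const (ka μ m F)
  rw [zero_add] at h2
  refine h2.congr' ?_
  filter_upwards [eventually_ge_atTop 1] with n hn
  rw [hm.int_br F, avg_const hn]
  unfold ka
  ring

/-- every rule has at least this error -/
lemma Um.rule_ge (hm : Um μ e m) (hs : Sq μ w σ) {F : Finset E}
    {g : ℕ → V → (E → ℝ) → ℝ} (hg : ∀ n a, Rl F (g n a)) {ε : ℝ} (hε : 0 < ε) :
    ∀ᶠ n : ℕ in atTop, ka μ m F - ε < Fl μ e (g n) (σ n) n := by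
  have h1 := hm.fail_tendsto hs hg
  rw [Metric.tendsto_atTop] at h1
  obtain ⟨N, hN⟩ := h1 ε hε
  filter_upwards [eventually_ge_atTop (max N 1)] with n hn
  have hn1 : 1 ≤ n := le_trans (le_max_right _ _) hn
  have h2 := hN n (le_trans (le_max_left _ _) hn)
  rw [Real.dist_eq, sub_zero] at h2
  have h3 : ka μ m F ≤ (∑ a ∈ pos n,
      (1 - ∫ J, g n a J * m J ∂(infinitePi fun _ : E => μ)) / 2) / (n : ℝ) ^ 2 := by
    rw [← avg_const hn1 (ka μ m F)]
    refine div_le_div_of_nonneg_right (Finset.sum_le_sum fun a _ => ?_) (sq_nonneg _)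
    have := hm.int_le (hg n a)
    unfold ka
    linarith
  have := (abs_lt.1 h2).1
  linarith

/-- uniformity in the rules -/
lemma Um.rule_unif (hm : Um μ e m) (hs : Sq μ w σ) (F : Finset E) {ε : ℝ} (hε : 0 < ε) :
    ∃ N : ℕ, ∀ n, N ≤ n → ∀ g : V → (E → ℝ) → ℝ, (∀ a, Rl F (g a)) →
      ka μ m F - ε < Fl μ e g (σ n) n := by
  classical
  set bad : ℕ → (V → (E → ℝ) → ℝ) → Prop := fun n g => (∀ a, Rl F (g a)) ∧
    ¬ ka μ m F - ε < Fl μ e g (σ n) n with hbad
  set g0 : ℕ → V → (E → ℝ) → ℝ := fun n =>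
    if h : ∃ g, bad n g then h.choose else fun _ => br μ m F with hg0
  have hr : ∀ n a, Rl F (g0 n a) := by
    intro n a
    simp only [hg0]
    by_cases h : ∃ g, bad n g
    · rw [dif_pos h]; exact h.choose_spec.1 a
    · rw [dif_neg h]; exact hm.br_rl F
  obtain ⟨N, hN⟩ := eventually_atTop.1 (hm.rule_ge hs hr hε)
  refine ⟨N, fun n hn g hg => ?_⟩
  by_contra hc
  have hex : ∃ g, bad n g := ⟨g, hg, hc⟩
  have h1 := hN n hn
  have h2 : g0 n = hex.choose := by simp only [hg0]; rw [dif_pos hex]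
  rw [h2] at h1
  exact hex.choose_spec.2 h1

lemma Ds_le {s s' : (E → ℝ) → V → ℝ} (f : V → (E → ℝ) → ℝ) (n : ℕ) :
    Ds μ e s s' n ≤ Fl μ e f s n + Fl μ e f s' n := by
  unfold Ds Fl
  rw [← add_div, ← Finset.sum_add_distrib]
  refine div_le_div_of_nonneg_right (Finset.sum_le_sum fun a _ => ?_) (sq_nonneg _)
  refine (measureReal_mono (μ := infinitePi fun _ : E => μ) (s₂ :=
    {J | f a (sh a J) ≠ bp (s J) (st a e)} ∪ {J | f a (sh a J) ≠ bp (s' J) (st a e)})
    fun J hJ => ?_).trans (measureReal_union_le _ _)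
  by_contra hc
  simp only [Set.mem_union, Set.mem_ofPred_eq, not_or, not_not] at hc
  exact hJ (hc.1.symm.trans hc.2)

lemma Um.ds_le (hm : Um μ e m) (hs : Sq μ w σ) (hs' : Sq μ w' σ') {ε : ℝ} (hε : 0 < ε) :
    ∀ᶠ n : ℕ in atTop, Ds μ e (σ n) (σ' n) n < 2 * ki μ m + ε := by
  obtain ⟨F, hF⟩ := ((hm.ka_tendsto.eventually (gt_mem_nhds
    (show ki μ m < ki μ m + ε / 4 by linarith)))).exists
  have h1 := (hm.br_tendsto hs F).eventually (gt_mem_nhds (show ka μ m F < ka μ m F + ε / 4 by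
    linarith))
  have h2 := (hm.br_tendsto hs' F).eventually (gt_mem_nhds (show ka μ m F < ka μ m F + ε / 4 by
    linarith))
  filter_upwards [h1, h2] with n h1 h2
  have h3 := Ds_le (μ := μ) (e := e) (s := σ n) (s' := σ' n) (fun _ => br μ m F) n
  linarith

end Pool.Agent.Helper24.EA
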