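import Pool.Agent.Helper24.EA.A

/-!
# Measurable ground states
-/

set_option autoImplicit false
set_option linter.unusedSectionVars false

open MeasureTheory Measure Filter Topology

namespace Pool.Agent.Helper24.EA

open Pool.Agent.K3h93.EA Pool.Agent.K3h93.EF

/-- a measurable maximiser -/
lemma exists_argmax {ι Ω : Type*} [Fintype ι] [Nonempty ι] [MeasurableSpace Ω] {H : ι → Ω → ℝ}
    (hH : ∀ i, Measurable (H i)) : ∃ T : Ω → ι, (∀ s : Set ι, MeasurableSet (T ⁻¹' s)) ∧
      (∀ ω i, H i ω ≤ H (T ω) ω) ∧ ∀ ω ω', (∀ i, H i ω = H i ω') → T ω = T ω' := by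
  classical
  set c := Fintype.equivFin ι with hc
  set p : Ω → ℕ → Prop := fun ω k => ∃ h : k < Fintype.card ι, ∀ i, H i ω ≤ H (c.symm ⟨k, h⟩) ω
    with hp
  have hex : ∀ ω, ∃ k, p ω k := by
    intro ω
    obtain ⟨i, -, hi⟩ := Finset.exists_max_image Finset.univ (fun i => H i ω)
      Finset.univ_nonempty
    refine ⟨c i, (c i).2, fun j => ?_⟩
    simpa using hi j (Finset.mem_univ j)
  have hm : ∀ k, MeasurableSet {ω | p ω k} := by
    intro k
    by_cases h : k < Fintype.card ι
    · have e1 : {ω | p ω k} = ⋂ i, {ω | H i ω ≤ H (c.symm ⟨k, h⟩) ω} := by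
        ext ω
        simp only [hp, Set.mem_ofPred_eq, Set.mem_iInter]
        exact ⟨fun ⟨_, h2⟩ => h2, fun h2 => ⟨h, h2⟩⟩
      rw [e1]
      exact MeasurableSet.iInter fun i => measurableSet_le (hH i) (hH _)
    · have e1 : {ω | p ω k} = ∅ := by
        ext ω
        simp only [hp, Set.mem_ofPred_eq, Set.mem_empty_iff_false, iff_false]
        exact fun ⟨h2, _⟩ => h h2
      rw [e1]
      exact MeasurableSet.empty
  have hf : Measurable fun ω => Nat.find (hex ω) := measurable_find hex hm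
  refine ⟨fun ω => c.symm ⟨Nat.find (hex ω), (Nat.find_spec (hex ω)).choose⟩, fun s => ?_,
    fun ω i => (Nat.find_spec (hex ω)).choose_spec i, fun ω ω' h => ?_⟩
  · have e1 : (fun ω => c.symm ⟨Nat.find (hex ω), (Nat.find_spec (hex ω)).choose⟩) ⁻¹' s =
        (fun ω => Nat.find (hex ω)) ⁻¹' {k | ∃ h : k < Fintype.card ι, c.symm ⟨k, h⟩ ∈ s} := by
      ext ω
      simp only [Set.mem_preimage, Set.mem_ofPred_eq]
      exact ⟨fun h => ⟨_, h⟩, fun ⟨_, h⟩ => h⟩
    rw [e1]
    exact hf (Set.to_countable _).measurableSet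
  · have e1 : ∀ k, p ω k ↔ p ω' k := by
      intro k
      simp only [hp]
      refine exists_congr fun h2 => forall_congr' fun i => ?_
      rw [h i, h]
    have e2 : Nat.find (hex ω) = Nat.find (hex ω') := Nat.find_congr' fun {k} => e1 k
    simp only [e2]

lemma meas_of_pre {ι Ω : Type*} [MeasurableSpace Ω] {T : Ω → ι}
    (hT : ∀ s : Set ι, MeasurableSet (T ⁻¹' s)) (g : ι → V → ℝ) : Measurable fun ω => g (T ω) := by
  refine measurable_pi_lambda _ fun v => ?_
  intro s _
  exact hT ((fun i => g i v) ⁻¹' s)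

/-- the free boundary condition -/
lemma bt_zero (L : ℕ) : BT L (fun _ _ => 0) :=
  ⟨fun _ _ _ _ => rfl, fun _ _ _ _ => rfl, fun _ => measurable_const⟩

/-- measurable ground states -/
lemma exists_free (L : ℕ) : ∃ φ : (E → ℝ) → V → ℝ, Measurable φ ∧
    (∀ J, GSB L (fun _ _ => 0) J (φ J)) ∧ ∀ J J', (∀ e ∈ FB L, J e = J' e) → φ J = φ J' := by
  obtain ⟨T, hT, hmax, hdep⟩ := exists_argmax (ι := {x // x ∈ bxF L} → Bool)
    (H := fun T J => HE L (fun _ _ => 0) J (ext L T)) (fun T => by
      unfold HE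
      refine Measurable.add (Finset.measurable_sum _ fun e _ => ?_) measurable_const
      exact (measurable_pi_apply e).mul measurable_const)
  refine ⟨fun J => ext L (T J), meas_of_pre hT _, fun J => ⟨ext_spin L _, fun s' hs' => ?_⟩,
    fun J J' h => ?_⟩
  · obtain ⟨T', hT'⟩ := exists_ext hs' L
    rw [← HE_congr (bt_zero L) J hT']
    exact hmax J T'
  · simp only
    rw [hdep J J' fun T => ?_]
    unfold HE
    congr 1
    exact Finset.sum_congr rfl fun e he => by rw [h e he]

/-- the free ground states -/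
noncomputable def fr (L : ℕ) : (E → ℝ) → V → ℝ := (exists_free L).choose

lemma fr_meas (L : ℕ) : Measurable (fr L) := (exists_free L).choose_spec.1

lemma fr_gs (L : ℕ) (J : E → ℝ) : GSB L (fun _ _ => 0) J (fr L J) :=
  (exists_free L).choose_spec.2.1 J

variable {μ : Measure ℝ} [IsProbabilityMeasure μ]

lemma fr_sq : Sq μ (fun _ _ _ => 0) fr :=
  ⟨bt_zero, fr_meas, fun L => Eventually.of_forall fun J => fr_gs L J⟩

end Pool.Agent.Helper24.EA
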