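import Pool.Agent.Helper24.EA.B
import Pool.Graph.R_pool_sql_team_seeded_5cf16337.K3h93.EF.Sup

/-!
# Boundary terms from larger boxes
-/

set_option autoImplicit false
set_option linter.unusedSectionVars false

open MeasureTheory Measure Filter Topology

namespace Pool.Agent.Helper24.EA

open Pool.Agent.K3h93.EA Pool.Agent.K3h93.EF

/-- the sites at the boundary of the box -/
def bd (L : ℕ) : Set V := {x | x ∈ Bx L ∧ ∃ i, x i = 0 ∨ x i = L}

open Classical in
/-- the spins outside -/
noncomputable def ov (L M : ℕ) (x0 : V) (s : V → ℝ) (T : {x // x ∈ bxF M} → Bool) : V → ℝ :=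
  fun v => if v - x0 ∈ bd L then s (v - x0) else ext M T v

open Classical in
/-- the bonds outside -/
noncomputable def ob (L M : ℕ) (x0 : V) : Finset E := (FB M).filter fun e => st (-x0) e ∉ FB L

/-- the energy outside -/
noncomputable def OS (L M : ℕ) (x0 : V) (η : E → ℝ) (s : V → ℝ) (T : {x // x ∈ bxF M} → Bool) :
    ℝ := ∑ e ∈ ob L M x0, η (st (-x0) e) * bp (ov L M x0 s T) e

/-- the boundary term -/
noncomputable def wb (L M : ℕ) (x0 : V) (η : E → ℝ) (s : V → ℝ) : ℝ :=
  Finset.univ.sup' ⟨fun _ => true, Finset.mem_univ _⟩ fun T : {x // x ∈ bxF M} → Bool =>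
    OS L M x0 η s T

lemma OS_le_wb (L M : ℕ) (x0 : V) (η : E → ℝ) (s : V → ℝ) (T : {x // x ∈ bxF M} → Bool) :
    OS L M x0 η s T ≤ wb L M x0 η s :=
  Finset.le_sup' (fun T : {x // x ∈ bxF M} → Bool => OS L M x0 η s T) (Finset.mem_univ T)

lemma exists_wb (L M : ℕ) (x0 : V) (η : E → ℝ) (s : V → ℝ) :
    ∃ T, wb L M x0 η s = OS L M x0 η s T := by
  obtain ⟨T, -, hT⟩ := Finset.exists_mem_eq_sup'
    (⟨fun _ => true, Finset.mem_univ _⟩ :
      (Finset.univ : Finset ({x // x ∈ bxF M} → Bool)).Nonempty)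
    (fun T : {x // x ∈ bxF M} → Bool => OS L M x0 η s T)
  exact ⟨T, hT⟩

lemma wb_bt (L M : ℕ) (x0 : V) (η : E → ℝ) : BT L (fun _ s => wb L M x0 η s) := by
  classical
  refine ⟨fun _ _ _ _ => rfl, fun _ s s' h => ?_, fun _ => measurable_const⟩
  have h1 : ∀ T, ov L M x0 s T = ov L M x0 s' T := by
    intro T
    funext v
    unfold ov
    by_cases hv : v - x0 ∈ bd L
    · rw [if_pos hv, if_pos hv, h _ hv.1 hv.2]
    · rw [if_neg hv, if_neg hv]
  have h2 : ∀ T, OS L M x0 η s T = OS L M x0 η s' T := by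
    intro T
    unfold OS
    rw [h1 T]
  show wb L M x0 η s = wb L M x0 η s'
  unfold wb
  simp only [h2]

lemma OS_congr {L M : ℕ} {x0 : V} {η η' : E → ℝ} (h : ∀ e, e ∉ FB L → η e = η' e)
    (s : V → ℝ) (T : {x // x ∈ bxF M} → Bool) : OS L M x0 η s T = OS L M x0 η' s T := by
  classical
  unfold OS
  refine Finset.sum_congr rfl fun e he => ?_
  unfold ob at he
  rw [Finset.mem_filter] at he
  rw [h _ he.2]

/-- splitting the energy -/
lemma split {L M : ℕ} {x0 : V} (hx : ∀ i, 0 ≤ x0 i ∧ x0 i + L ≤ M) (f : E → ℝ) :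
    ∑ e ∈ FB M, f e = ∑ e ∈ FB L, f (st x0 e) + ∑ e ∈ ob L M x0, f e := by
  classical
  rw [← Finset.sum_filter_add_sum_filter_not (FB M) (fun e => st (-x0) e ∈ FB L)]
  congr 1
  rw [Finset.sum_filter]
  rw [sum_shift (L := M) (F' := FB L) (x := x0)
    (f := fun e => if st (-x0) e ∈ FB L then f e else 0) (fun e he =>
      Finset.mem_coe.1 (SB_sub hx ⟨e, Finset.mem_coe.2 he, rfl⟩)) (fun e he => if_neg he)]
  exact Finset.sum_congr rfl fun e he => by rw [st_neg, if_pos he]

lemma end_bd {L : ℕ} {x0 : V} {e : E} (he : st (-x0) e ∉ FB L) :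
    (e.1 - x0 ∈ Bx L → e.1 - x0 ∈ bd L) ∧
      (e.1 + (Pi.single e.2 (1 : ℤ) : V) - x0 ∈ Bx L →
        e.1 + (Pi.single e.2 (1 : ℤ) : V) - x0 ∈ bd L) := by
  have h1 : (st (-x0) e).1 = e.1 - x0 := by unfold st; simp only; rw [sub_eq_add_neg]
  have h2 : (st (-x0) e).1 + (Pi.single (st (-x0) e).2 (1 : ℤ) : V) =
      e.1 + (Pi.single e.2 (1 : ℤ) : V) - x0 := by
    unfold st; simp only; abel
  rw [FB_iff, h2, h1] at he
  have key : ∀ i, i ≠ e.2 → (e.1 + (Pi.single e.2 (1 : ℤ) : V) - x0) i = (e.1 - x0) i := by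
    intro i hi
    simp only [Pi.sub_apply, Pi.add_apply]
    rw [Pi.single_eq_of_ne hi, add_zero]
  have key2 : (e.1 + (Pi.single e.2 (1 : ℤ) : V) - x0) e.2 = (e.1 - x0) e.2 + 1 := by
    simp only [Pi.sub_apply, Pi.add_apply, Pi.single_eq_same]
    ring
  constructor
  · intro ha
    refine ⟨ha, e.2, Or.inr ?_⟩
    by_contra hc
    apply he
    refine ⟨ha, fun i => ?_⟩
    by_cases hi : i = e.2
    · subst hi
      rw [key2]
      have := ha e.2
      omega
    · rw [key i hi]; exact ha i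
  · intro hb
    refine ⟨hb, e.2, Or.inl ?_⟩
    by_contra hc
    apply he
    refine ⟨fun i => ?_, hb⟩
    by_cases hi : i = e.2
    · subst hi
      have := hb e.2
      rw [key2] at this hc
      omega
    · rw [← key i hi]; exact hb i

/-- The restriction of a ground state of the large box. -/
lemma sub_gs {L M : ℕ} {x0 : V} (hx : ∀ i, 0 ≤ x0 i ∧ x0 i + L ≤ M) (J η : E → ℝ) {τ : V → ℝ}
    (h : GSB M (fun _ _ => 0) (sh (-x0) (patch ((FB L : Finset E) : Set E)ᶜ J η)) τ) :
    GSB L (fun _ s => wb L M x0 η s) J (fun v => τ (v + x0)) := by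
  classical
  set A : Set E := ((FB L : Finset E) : Set E)ᶜ with hA
  have hin : ∀ e ∈ FB L, patch A J η e = J e := fun e he =>
    patch_not (show e ∉ A by rw [hA]; simpa using he) _ _
  have hout : ∀ e, e ∉ FB L → patch A J η e = η e := fun e he =>
    patch_mem (show e ∈ A from fun h => he (Finset.mem_coe.1 h)) _ _
  have hHE : ∀ ρ : V → ℝ, HE M (fun _ _ => 0) (sh (-x0) (patch A J η)) ρ =
      ∑ e ∈ FB L, J e * bp ρ (st x0 e) + ∑ e ∈ ob L M x0, η (st (-x0) e) * bp ρ e := by
    intro ρ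
    unfold HE
    rw [add_zero, split hx]
    congr 1
    · exact Finset.sum_congr rfl fun e he => by rw [sh_st, hin e he]
    · refine Finset.sum_congr rfl fun e he => ?_
      unfold ob at he
      rw [Finset.mem_filter] at he
      rw [sh_apply, hout _ he.2]
  refine ⟨fun v => h.1 _, fun s' hs' => ?_⟩
  obtain ⟨T, hT⟩ := exists_wb L M x0 η s'
  -- the hybrid
  set ρ : V → ℝ := fun v => if v - x0 ∈ Bx L then s' (v - x0) else ext M T v with hρ
  have hρs : Spin ρ := by
    intro v
    simp only [hρ]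
    split_ifs
    · exact hs' _
    · exact ext_spin M T v
  have e1 : HE L (fun _ s => wb L M x0 η s) J s' =
      HE M (fun _ _ => 0) (sh (-x0) (patch A J η)) ρ := by
    rw [hHE]
    unfold HE
    congr 1
    · refine Finset.sum_congr rfl fun e he => ?_
      rw [FB_iff] at he
      congr 1
      unfold bp
      have h1 : (st x0 e).1 - x0 = e.1 := by unfold st; simp
      have h2 : (st x0 e).1 + (Pi.single (st x0 e).2 (1 : ℤ) : V) - x0 =
          e.1 + (Pi.single e.2 (1 : ℤ) : V) := by unfold st; simp only; abel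
      simp only [hρ]
      rw [h1, h2, if_pos he.1, if_pos he.2]
    · show wb L M x0 η s' = _
      rw [hT]
      unfold OS
      refine Finset.sum_congr rfl fun e he => ?_
      unfold ob at he
      rw [Finset.mem_filter] at he
      have h3 := end_bd he.2
      have h4 : ∀ v : V, (v - x0 ∈ Bx L → v - x0 ∈ bd L) → ov L M x0 s' T v = ρ v := by
        intro v hv
        simp only [hρ]
        unfold ov
        by_cases h5 : v - x0 ∈ Bx L
        · rw [if_pos h5, if_pos (hv h5)]
        · rw [if_neg h5, if_neg (fun h => h5 h.1)]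
      unfold bp
      rw [h4 _ h3.1, h4 _ h3.2]
  have e2 : HE M (fun _ _ => 0) (sh (-x0) (patch A J η)) τ ≤
      HE L (fun _ s => wb L M x0 η s) J (fun v => τ (v + x0)) := by
    rw [hHE]
    unfold HE
    refine add_le_add (le_of_eq ?_) ?_
    · exact Finset.sum_congr rfl fun e _ => by rw [bp_shift]
    · obtain ⟨T', hT'⟩ := exists_ext h.1 M
      refine le_trans (le_of_eq ?_) (OS_le_wb L M x0 η _ T')
      unfold OS
      refine Finset.sum_congr rfl fun e he => ?_
      unfold ob at he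
      rw [Finset.mem_filter, FB_iff] at he
      have h4 : ∀ v : V, v ∈ Bx M → τ v = ov L M x0 (fun v => τ (v + x0)) T' v := by
        intro v hv
        unfold ov
        split_ifs
        · simp
        · rw [hT' v hv]
      congr 1
      unfold bp
      rw [h4 _ he.1.1, h4 _ he.1.2]
  rw [e1]
  exact (h.2 ρ hρs).trans e2

/-! ### Averaging -/

/-- the sign -/
noncomputable def sg (x : ℝ) : ℝ := if 0 ≤ x then 1 else -1

lemma sg_pm (x : ℝ) : sg x = 1 ∨ sg x = -1 := by unfold sg; split_ifs <;> simp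

lemma sg_of {x : ℝ} (h : x = 1 ∨ x = -1) : sg x = x := by
  unfold sg
  rcases h with h | h <;> rw [h] <;> norm_num

lemma sg_meas : Measurable sg :=
  Measurable.ite (measurableSet_le measurable_const measurable_id) measurable_const
    measurable_const

variable {μ : Measure ℝ} [IsProbabilityMeasure μ]

lemma fub {α β : Type*} [MeasurableSpace α] [MeasurableSpace β] (P : Measure α) (Q : Measure β)
    [IsProbabilityMeasure P] [IsProbabilityMeasure Q] {B : Set (α × β)} (hB : MeasurableSet B) :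
    (P.prod Q).real B = ∫ y, P.real {x | (x, y) ∈ B} ∂Q ∧
      Integrable (fun y => P.real {x | (x, y) ∈ B}) Q := by
  have hm : Measurable fun y => P ((fun x => (x, y)) ⁻¹' B) := measurable_measure_prodMk_right hB
  constructor
  · rw [measureReal_def, prod_apply_symm hB]
    exact (integral_toReal hm.aemeasurable (Eventually.of_forall fun y =>
      measure_lt_top P _)).symm
  · refine Integrable.of_bound (C := 1) hm.ennreal_toReal.aestronglyMeasurable
      (Eventually.of_forall fun y => ?_)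
    rw [Real.norm_eq_abs, abs_of_nonneg measureReal_nonneg]
    exact measureReal_le_one

variable {m : (E → ℝ) → ℝ} {i : Fin 2}

/-- the window -/
noncomputable def wn (L : ℕ) : Finset E := bM (L + 1)

lemma wn_of {L : ℕ} {a : V} (ha : ∀ i, 0 ≤ a i ∧ a i < L) {e : E} (he : e ∈ FB L) :
    st (-a) e ∈ wn L := by
  unfold wn
  rw [mem_bM]
  rw [mem_FB] at he
  intro i
  have h1 := he.1 i
  have h2 := ha i
  unfold st
  simp only [Pi.add_apply, Pi.neg_apply]
  push_cast
  constructor <;> omega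

/-- **The partner.** -/
lemma Um.partner (hm : Um μ (0, i) m) {L : ℕ} (hL : 1 ≤ L) {s : (E → ℝ) → V → ℝ}
    (hs : Measurable s) (hsp : ∀ᵐ J ∂(infinitePi fun _ : E => μ), Spin (s J)) {ε : ℝ}
    (hε : 0 < ε) : ∃ (w : (V → ℝ) → ℝ) (s' : (E → ℝ) → V → ℝ), BT L (fun _ t => w t) ∧
      Measurable s' ∧ (∀ J, GSB L (fun _ t => w t) J (s' J)) ∧
      ki μ m - ε ≤ Ds μ (0, i) s s' L := by
  classical
  set P := infinitePi fun _ : E => μ with hP
  set e : E := (0, i) with he
  set A : Set E := ((FB L : Finset E) : Set E)ᶜ with hA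
  obtain ⟨N, hN⟩ := hm.rule_unif (fr_sq (μ := μ)) (wn L) hε
  set K : ℕ := N + 1 with hK
  set M : ℕ := K * L with hM
  have hMN : N ≤ M := by
    have h1 : K * 1 ≤ K * L := Nat.mul_le_mul_left K hL
    omega
  have hL0 : (0 : ℤ) < L := by exact_mod_cast hL
  -- the rules
  set md : V → V := fun a j => a j % (L : ℤ) with hmd
  have hmd1 : ∀ a j, 0 ≤ md a j ∧ md a j < L := fun a j =>
    ⟨Int.emod_nonneg _ hL0.ne', Int.emod_lt_of_pos _ hL0⟩
  have hmd2 : ∀ (a' b : V), a' ∈ pos L → md (a' + nk L b) = a' := by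
    intro a' b ha'
    rw [mem_pos] at ha'
    funext j
    simp only [hmd, Pi.add_apply, nk]
    rw [Int.add_mul_emod_self_left, Int.emod_eq_of_lt (ha' j).1 (ha' j).2]
  set g : (E → ℝ) → V → (E → ℝ) → ℝ := fun ζ a J =>
    sg (bp (s (patch A (sh (-md a) J) ζ)) (st (md a) e)) with hg
  have mpz : ∀ ζ : E → ℝ, Measurable fun J : E → ℝ => patch A J ζ := fun ζ =>
    (measurable_patch A).comp (measurable_id.prodMk measurable_const)
  have hgr : ∀ ζ a, Rl (wn L) (g ζ a) := by
    intro ζ a
    refine ⟨?_, fun J => sg_pm _, fun J J' h => ?_⟩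
    · exact sg_meas.comp ((bpm hs _).comp ((mpz ζ).comp (measurable_sh _)))
    · simp only [hg]
      have h1 : patch A (sh (-md a) J) ζ = patch A (sh (-md a) J') ζ := by
        funext e'
        by_cases h2 : e' ∈ A
        · rw [patch_mem h2, patch_mem h2]
        · rw [patch_not h2, patch_not h2, sh_apply, sh_apply]
          have h3 : e' ∈ FB L := by
            by_contra h4
            exact h2 fun h5 => h4 (Finset.mem_coe.1 h5)
          exact h _ (Finset.mem_coe.2 (wn_of (hmd1 a) h3))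
      rw [h1]
  -- the events
  set U : V → (E → ℝ) → ℝ := fun a' J => sg (bp (s J) (st a' e)) with hU
  set Wf : V → V → (E → ℝ) → ℝ := fun b a' J =>
    bp (fr M (sh (-nk L b) J)) (st (a' + nk L b) e) with hWf
  have mU : ∀ a', Measurable (U a') := fun a' => sg_meas.comp (bpm hs _)
  have mW : ∀ b a', Measurable (Wf b a') := fun b a' =>
    (bpm (fr_meas M) _).comp (measurable_sh _)
  set B : V → V → Set ((E → ℝ) × (E → ℝ)) := fun b a' =>
    {p | U a' p.1 ≠ Wf b a' (patch A p.1 p.2)} with hB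
  have mB : ∀ b a', MeasurableSet (B b a') := fun b a' =>
    (measurableSet_eq_fun ((mU a').comp measurable_fst)
      ((mW b a').comp (measurable_patch A))).compl
  set B' : V → V → Set ((E → ℝ) × (E → ℝ)) := fun b a' =>
    {p | U a' (patch A p.1 p.2) ≠ Wf b a' p.1} with hB'
  have mB' : ∀ b a', MeasurableSet (B' b a') := fun b a' =>
    (measurableSet_eq_fun ((mU a').comp (measurable_patch A))
      ((mW b a').comp measurable_fst)).compl
  have hBB : ∀ b a', (P.prod P).real (B b a') = (P.prod P).real (B' b a') := by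
    intro b a'
    have h1 : sw A ⁻¹' (B b a') = B' b a' := by
      ext p
      simp only [hB, hB', Set.mem_preimage, Set.mem_ofPred_eq]
      have h2 : patch A (sw A p).1 (sw A p).2 = p.1 := congrArg Prod.fst (sw_sw A p)
      rw [h2]
      rfl
    rw [← h1, measureReal_def, measureReal_def,
      (sw_law μ A).measure_preimage (mB b a').nullMeasurableSet]
  -- for every `ζ`
  have hz : ∀ ζ : E → ℝ, (ki μ m - ε) * (M : ℝ) ^ 2 ≤
      ∑ b ∈ pos K, ∑ a' ∈ pos L, P.real {J | (J, ζ) ∈ B' b a'} := by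
    intro ζ
    have h1 := hN M hMN (g ζ) (hgr ζ)
    have h2 := hm.ki_le (wn L)
    have hM0 : (0 : ℝ) < (M : ℝ) ^ 2 := by
      have : 0 < M := Nat.mul_pos (by omega) (by omega)
      positivity
    unfold Fl at h1
    rw [lt_div_iff₀ hM0] at h1
    have h3 : ∑ a ∈ pos M, (infinitePi fun _ : E => μ).real
        {J | g ζ a (sh a J) ≠ bp (fr M J) (st a e)} =
        ∑ b ∈ pos K, ∑ a' ∈ pos L, P.real {J | (J, ζ) ∈ B' b a'} := by
      rw [hM, sum_pos_mul K L hL]
      refine Finset.sum_congr rfl fun b _ => ?_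
      unfold SP
      rw [Finset.sum_image fun a _ b _ h => add_right_cancel h]
      refine Finset.sum_congr rfl fun a' ha' => ?_
      have hms : MeasurableSet {J | g ζ (a' + nk L b) (sh (a' + nk L b) J) ≠
          bp (fr (K * L) J) (st (a' + nk L b) e)} :=
        (measurableSet_eq_fun ((hgr ζ _).meas.comp (measurable_sh _)) (bpm (fr_meas _) _)).compl
      rw [measureReal_def, ← (sh_law μ (-nk L b)).measure_preimage hms.nullMeasurableSet,
        ← measureReal_def]
      congr 1
      ext J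
      simp only [Set.mem_preimage, Set.mem_ofPred_eq, hB', hg, hU, hWf]
      rw [hmd2 a' b ha', sh_sh, sh_sh]
      have h4 : -a' + (a' + nk L b) + -nk L b = 0 := by abel
      rw [h4, sh_zero]
    rw [h3] at h1
    nlinarith
  -- integrate over `ζ`
  have hsum : (ki μ m - ε) * (M : ℝ) ^ 2 ≤
      ∑ b ∈ pos K, ∑ a' ∈ pos L, (P.prod P).real (B b a') := by
    have h1 : ∑ b ∈ pos K, ∑ a' ∈ pos L, (P.prod P).real (B b a') =
        ∫ ζ, ∑ b ∈ pos K, ∑ a' ∈ pos L, P.real {J | (J, ζ) ∈ B' b a'} ∂P := by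
      rw [integral_finsetSum _ fun b _ => integrable_finsetSum _ fun a' _ =>
        (fub P P (mB' b a')).2]
      refine Finset.sum_congr rfl fun b _ => ?_
      rw [integral_finsetSum _ fun a' _ => (fub P P (mB' b a')).2]
      refine Finset.sum_congr rfl fun a' _ => ?_
      rw [hBB, (fub P P (mB' b a')).1]
    rw [h1]
    have h2 : (ki μ m - ε) * (M : ℝ) ^ 2 = ∫ _ζ : E → ℝ, (ki μ m - ε) * (M : ℝ) ^ 2 ∂P := by
      rw [integral_const, probReal_univ, one_smul]
    rw [h2]
    exact integral_mono (integrable_const _) (integrable_finsetSum _ fun b _ =>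
      integrable_finsetSum _ fun a' _ => (fub P P (mB' b a')).2) hz
  -- choose `η`
  obtain ⟨η, hη⟩ : ∃ η : E → ℝ, (ki μ m - ε) * (M : ℝ) ^ 2 ≤
      ∑ b ∈ pos K, ∑ a' ∈ pos L, P.real {J | (J, η) ∈ B b a'} := by
    have hint : Integrable (fun η : E → ℝ =>
        ∑ b ∈ pos K, ∑ a' ∈ pos L, P.real {J | (J, η) ∈ B b a'}) P :=
      integrable_finsetSum _ fun b _ => integrable_finsetSum _ fun a' _ =>
        (fub P P (mB b a')).2
    obtain ⟨η, hη⟩ := exists_integral_le hint
    refine ⟨η, le_trans ?_ hη⟩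
    refine hsum.trans (le_of_eq ?_)
    rw [integral_finsetSum _ fun b _ => integrable_finsetSum _ fun a' _ =>
        (fub P P (mB b a')).2]
    refine Finset.sum_congr rfl fun b _ => ?_
    rw [integral_finsetSum _ fun a' _ => (fub P P (mB b a')).2]
    exact Finset.sum_congr rfl fun a' _ => (fub P P (mB b a')).1
  -- choose `b`
  obtain ⟨b, hb, hbb⟩ : ∃ b ∈ pos K, (ki μ m - ε) * (L : ℝ) ^ 2 ≤
      ∑ a' ∈ pos L, P.real {J | (J, η) ∈ B b a'} := by
    by_contra hcon
    push Not at hcon
    have hne : (pos K).Nonempty := by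
      rw [← Finset.card_pos, card_pos]
      positivity
    have h1 := Finset.sum_lt_sum_of_nonempty hne hcon
    rw [Finset.sum_const, card_pos, nsmul_eq_mul] at h1
    have h2 : ((K ^ 2 : ℕ) : ℝ) * ((ki μ m - ε) * (L : ℝ) ^ 2) =
        (ki μ m - ε) * (M : ℝ) ^ 2 := by
      rw [hM]; push_cast; ring
    rw [h2] at h1
    exact absurd hη (not_le.2 h1)
  rw [mem_pos] at hb
  have hx : ∀ j, 0 ≤ nk L b j ∧ nk L b j + L ≤ (M : ℤ) := by
    intro j
    have h1 := hb j
    simp only [nk, hM]
    push_cast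
    constructor
    · exact mul_nonneg hL0.le h1.1
    · have h2 : (L : ℤ) * (b j + 1) ≤ L * K := mul_le_mul_of_nonneg_left (by omega) hL0.le
      linarith
  refine ⟨wb L M (nk L b) η, fun J v => fr M (sh (-nk L b) (patch A J η)) (v + nk L b),
    wb_bt _ _ _ _, ?_, fun J => sub_gs hx J η (fr_gs M _), ?_⟩
  · refine measurable_pi_lambda _ fun v => ?_
    exact (measurable_pi_apply (v + nk L b)).comp
      ((fr_meas M).comp ((measurable_sh _).comp (mpz η)))
  · have hL2 : (0 : ℝ) < (L : ℝ) ^ 2 := by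
      have : (0 : ℝ) < L := by exact_mod_cast hL
      positivity
    unfold Ds
    rw [le_div_iff₀ hL2]
    refine hbb.trans (le_of_eq (Finset.sum_congr rfl fun a' _ => ?_))
    refine measureReal_congr ?_
    filter_upwards [hsp] with J hJ
    refine eq_iff_iff.2 ?_
    show U a' J ≠ Wf b a' (patch A J η) ↔ bp (s J) (st a' e) ≠
      bp (fun v => fr M (sh (-nk L b) (patch A J η)) (v + nk L b)) (st a' e)
    simp only [hU, hWf]
    rw [sg_of (hJ.bp_cases _), bp_shift, st_st, add_comm (nk L b) a']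

end Pool.Agent.Helper24.EA
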