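import Pool.Agent.Helper24.EA.C
import Pool.Graph.R_seed8.R239.EA.H

/-!
# Uniqueness of the pair of ground states
-/

set_option autoImplicit false
set_option linter.unusedSectionVars false

open MeasureTheory Measure Filter Topology

namespace Pool.Agent.Helper24.EA

open Pool.Agent.K3h93.EA Pool.Agent.K3h93.EF
open Pool.Agent.R239.EA (dC nx u GI Gn bx tb Lw Inf)

lemma nx_eq (e : E) : nx e = e.1 + (Pi.single e.2 (1 : ℤ) : V) := rfl

lemma bp_nx (s : V → ℝ) (e : E) : bp s e = s e.1 * s (nx e) := rfl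

/-- In the interior of the box the ground states are ground states in the strict sense. -/
lemma gi_of {L : ℕ} {w : (E → ℝ) → (V → ℝ) → ℝ} (hw : BT L w) {J : E → ℝ} {s : V → ℝ}
    (h : GSB L w J s) (hJ : Gn J) {B : Finset V} (hB : ∀ x ∈ B, ∀ i, 0 < x i ∧ x i < L) :
    GI B J s := by
  classical
  refine ⟨h.1, fun A hA hAB => ?_⟩
  have hfin := Pool.Agent.R239.EA.dC_finite (d := 2) A.finite_toSet
  -- the flipped configuration
  set ρ : V → ℝ := fun x => if x ∈ A then -s x else s x with hρ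
  have hρs : Spin ρ := by
    intro x
    simp only [hρ]
    split_ifs
    · rcases h.1 x with h | h <;> rw [h] <;> simp
    · exact h.1 x
  have hstep : ∀ (x : V) (k : Fin 2) (c : ℤ), (c = 1 ∨ c = -1) → x ∈ A →
      x + (Pi.single k c : V) ∈ Bx L := by
    intro x k c hc hx j
    have h1 := hB x (hAB hx) j
    rw [Pi.add_apply]
    by_cases hj : j = k
    · subst hj
      rw [Pi.single_eq_same]
      rcases hc with h | h <;> rw [h] <;> constructor <;> omega
    · rw [Pi.single_eq_of_ne hj, add_zero]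
      constructor <;> omega
  have hsub : ∀ e ∈ dC (A : Set V), e ∈ FB L := by
    intro e he
    rw [FB_iff]
    rcases Pool.Agent.R239.EA.dC_end he with h1 | h1
    · rw [Finset.mem_coe] at h1
      refine ⟨fun j => ?_, hstep _ _ _ (Or.inl rfl) h1⟩
      have := hB _ (hAB h1) j
      constructor <;> omega
    · rw [Finset.mem_coe, nx_eq] at h1
      refine ⟨?_, fun j => ?_⟩
      · have h2 := hstep _ e.2 (-1) (Or.inr rfl) h1
        have h3 : e.1 + (Pi.single e.2 (1 : ℤ) : V) + (Pi.single e.2 (-1 : ℤ) : V) = e.1 := by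
          rw [add_assoc, ← Pi.single_add]
          simp
        rwa [h3] at h2
      · have := hB _ (hAB h1) j
        constructor <;> omega
  have hbp : ∀ e, J e * bp s e - J e * bp ρ e = if e ∈ dC (A : Set V) then 2 * (J e * bp s e)
      else 0 := by
    intro e
    rw [bp_nx, bp_nx]
    simp only [hρ]
    by_cases h1 : e.1 ∈ A <;> by_cases h2 : nx e ∈ A
    · rw [if_pos h1, if_pos h2, if_neg (fun h => h (by simp [h1, h2]))]; ring
    · rw [if_pos h1, if_neg h2, if_pos (show e ∈ dC (A : Set V) by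
        show ¬ (e.1 ∈ (A : Set V) ↔ nx e ∈ (A : Set V)); simp [h1, h2])]; ring
    · rw [if_neg h1, if_pos h2, if_pos (show e ∈ dC (A : Set V) by
        show ¬ (e.1 ∈ (A : Set V) ↔ nx e ∈ (A : Set V)); simp [h1, h2])]; ring
    · rw [if_neg h1, if_neg h2, if_neg (fun h => h (by simp [h1, h2]))]; ring
  have hws : w J ρ = w J s := by
    refine hw.spins _ _ _ fun x _ hxb => ?_
    have h1 : x ∉ A := by
      intro h2
      obtain ⟨j, hj⟩ := hxb
      have := hB _ (hAB h2) j
      omega
    simp only [hρ]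
    rw [if_neg h1]
  have h1 := h.2 ρ hρs
  unfold HE at h1
  rw [hws] at h1
  have h2 : 0 ≤ ∑ e ∈ FB L, (J e * bp s e - J e * bp ρ e) := by
    rw [Finset.sum_sub_distrib]; linarith
  simp only [hbp] at h2
  rw [← Finset.sum_filter] at h2
  have h3 : (FB L).filter (fun e => e ∈ dC (A : Set V)) = hfin.toFinset := by
    ext e
    rw [Finset.mem_filter, Set.Finite.mem_toFinset]
    exact ⟨fun h => h.2, fun h => ⟨hsub e h, h⟩⟩
  rw [h3, ← Finset.mul_sum] at h2
  have h4 : ∑ᶠ e ∈ dC (A : Set V), J e * (s e.1 * s (nx e)) =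
      ∑ e ∈ hfin.toFinset, J e * bp s e := finsum_mem_eq_finite_toFinset_sum _ hfin
  rw [h4]
  have h5 : ∑ e ∈ hfin.toFinset, J e * bp s e ≠ 0 := by
    set T1 := hfin.toFinset.filter fun e => bp s e = 1 with hT1
    set T2 := hfin.toFinset.filter fun e => ¬ bp s e = 1 with hT2
    have h6 : ∑ e ∈ hfin.toFinset, J e * bp s e = ∑ e ∈ T1, J e - ∑ e ∈ T2, J e := by
      rw [← Finset.sum_filter_add_sum_filter_not hfin.toFinset (fun e => bp s e = 1),
        sub_eq_add_neg, ← Finset.sum_neg_distrib]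
      congr 1
      · refine Finset.sum_congr rfl fun e he => ?_
        rw [Finset.mem_filter] at he
        rw [he.2, mul_one]
      · refine Finset.sum_congr rfl fun e he => ?_
        rw [Finset.mem_filter] at he
        rcases h.1.bp_cases e with h7 | h7
        · exact absurd h7 he.2
        · rw [h7]; ring
    rw [h6]
    have hdne : (dC (A : Set V)).Nonempty := by
      rw [Set.nonempty_iff_ne_empty]
      intro h7
      have h8 := Pool.Agent.R239.EA.eq_empty_of_dC (0 : Fin 2) A.finite_toSet h7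
      obtain ⟨x, hx⟩ := hA
      have : x ∈ (A : Set V) := hx
      rw [h8] at this
      exact this
    obtain ⟨e, he⟩ := hdne
    have h9 := hJ T1 T2 (Finset.disjoint_filter_filter_not _ _ _) ⟨e, by
      by_cases h10 : bp s e = 1
      · left
        rw [hT1, Finset.mem_filter]
        exact ⟨hfin.mem_toFinset.2 he, h10⟩
      · right
        rw [hT2, Finset.mem_filter]
        exact ⟨hfin.mem_toFinset.2 he, h10⟩⟩
    exact sub_ne_zero.2 h9
  rcases lt_or_eq_of_le (show 0 ≤ ∑ e ∈ hfin.toFinset, J e * bp s e by linarith) with h6 | h6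
  · exact h6
  · exact absurd h6.symm h5

variable {μ : Measure ℝ} [IsProbabilityMeasure μ]
variable {w w' : ℕ → (E → ℝ) → (V → ℝ) → ℝ} {σ σ' : ℕ → (E → ℝ) → V → ℝ}
variable {m : (E → ℝ) → ℝ} {i : Fin 2}

lemma lw_eq : Lw μ 2 = infinitePi fun _ : E => μ := rfl

/-- ground states at the position `a` -/
lemma Sq.gi (hs : Sq μ w σ) (hat : ∀ x, μ {x} = 0) {n r : ℕ} {a : V} (ha : a ∈ dp n (r + 1)) :
    ∀ᵐ J ∂(infinitePi fun _ : E => μ), GI (bx a r) J (σ n J) := by
  have hg : ∀ᵐ J ∂(infinitePi fun _ : E => μ), Gn J := Pool.Agent.R239.EA.gn_ae (d := 2) μ hat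
  filter_upwards [hs.gs n, hg] with J h1 h2
  refine gi_of (hs.bt n) h1 h2 fun x hx j => ?_
  rw [Pool.Agent.R239.EA.mem_bx'] at hx
  rw [mem_dp] at ha
  have h3 := abs_le.1 (hx j)
  have h4 := ha j
  push_cast at h4
  constructor <;> omega

lemma dis_inf (hs : Sq μ w σ) (hs' : Sq μ w' σ') (hat : ∀ x, μ {x} = 0) {n r : ℕ} {a : V}
    (ha : a ∈ dp n (r + 1)) : (infinitePi fun _ : E => μ).real
      {J | bp (σ n J) (st a (0, i)) ≠ bp (σ' n J) (st a (0, i))} ≤
        (Lw μ 2).real {J | Inf J 0 r} := by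
  have h1 : (infinitePi fun _ : E => μ)
      {J | bp (σ n J) (st a (0, i)) ≠ bp (σ' n J) (st a (0, i))} ≤
        (infinitePi fun _ : E => μ) {J | Inf J a r} := by
    refine measure_mono_ae ?_
    filter_upwards [Sq.gi hs hat ha, Sq.gi hs' hat ha] with J g1 g2 hJ
    refine ⟨σ n J, σ' n J, g1, g2, i, ?_⟩
    rw [Pool.Agent.R239.EA.edge_iff g1.1 g2.1]
    have e1 : st a ((0, i) : E) = (a, i) := by unfold st; simp
    rw [← e1]
    exact hJ
  have h2 := h1.trans (Pool.Agent.R239.EA.inf_le μ a r)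
  exact ENNReal.toReal_mono (measure_ne_top _ _) h2

/-- if there is only one pair of ground states then the limit error vanishes -/
lemma Um.unique (hm : Um μ (0, i) m) (hat : ∀ x, μ {x} = 0)
    (hu : ∀ᵐ J ∂(Lw μ 2), ∃ σ, Pool.Agent.R239.EA.GA J σ ∧
      ∀ τ, Pool.Agent.R239.EA.GA J τ → τ = σ ∨ τ = -σ) : ki μ m = 0 := by
  have h1 := (Pool.Agent.R239.EA.unique_iff (d := 2) μ le_rfl hat).1 hu
  have h2 : Tendsto (fun r => (Lw μ 2).real {J | Inf J 0 r}) atTop (𝓝 0) := by
    have := (ENNReal.tendsto_toReal ENNReal.zero_ne_top).comp h1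
    rwa [ENNReal.toReal_zero] at this
  refine le_antisymm ?_ hm.ki_nonneg
  refine ge_of_tendsto h2 (Eventually.of_forall fun r => ?_)
  -- a partner of the free boundary condition
  refine le_of_forall_pos_le_add fun ε hε => ?_
  choose wp sp hbt hmeas hgs hds using fun L : ℕ => fun hL : 1 ≤ L =>
    hm.partner hL (fr_meas L) (Eventually.of_forall fun J => (fr_gs L J).1)
      (show 0 < ε / 2 by linarith)
  obtain ⟨L0, hL0⟩ := exists_nat_gt (4 * ((r : ℝ) + 1) / (ε / 2))
  set L := L0 + 1 with hL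
  have hL1 : 1 ≤ L := by omega
  -- the family
  set w1 : ℕ → (E → ℝ) → (V → ℝ) → ℝ := fun n =>
    if h : 1 ≤ n then fun _ t => wp n h t else fun _ _ => 0 with hw1
  set s1 : ℕ → (E → ℝ) → V → ℝ := fun n => if h : 1 ≤ n then sp n h else fr n with hs1
  have hsq : Sq μ w1 s1 := by
    refine ⟨fun n => ?_, fun n => ?_, fun n => ?_⟩
    · simp only [hw1]
      split_ifs with h
      · exact hbt n h
      · exact bt_zero n
    · simp only [hs1]
      split_ifs with h
      · exact hmeas n h
      · exact fr_meas n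
    · simp only [hw1, hs1]
      split_ifs with h
      · exact Eventually.of_forall (hgs n h)
      · exact Eventually.of_forall (fr_gs n)
  have h3 := hds L hL1
  have h4 : s1 L = sp L hL1 := by simp only [hs1]; rw [dif_pos hL1]
  rw [← h4] at h3
  have hLp : (0 : ℝ) < L := by exact_mod_cast hL1
  have h5 : Ds μ (0, i) (fr L) (s1 L) L ≤ (Lw μ 2).real {J | Inf J 0 r} + ε / 2 := by
    unfold Ds
    rw [div_le_iff₀ (by positivity)]
    refine (pos_dp L (r + 1) (B := 1) (fun a => measureReal_nonneg)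
      (fun a => measureReal_le_one)).trans ?_
    have h6 : ∑ a ∈ dp L (r + 1), (infinitePi fun _ : E => μ).real
        {J | bp (fr L J) (st a (0, i)) ≠ bp (s1 L J) (st a (0, i))} ≤
        (L : ℝ) ^ 2 * (Lw μ 2).real {J | Inf J 0 r} := by
      refine (Finset.sum_le_card_nsmul _ _ _ fun a ha =>
        dis_inf (fr_sq (μ := μ)) hsq hat ha).trans ?_
      rw [nsmul_eq_mul]
      exact mul_le_mul_of_nonneg_right (dp_card_le L (r + 1)) measureReal_nonneg
    have h7 : 4 * ((r : ℝ) + 1) ≤ ε / 2 * L := by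
      rw [div_lt_iff₀ (by linarith)] at hL0
      have : (L0 : ℝ) ≤ L := by rw [hL]; push_cast; linarith
      nlinarith
    have h8 : 4 * ((r : ℝ) + 1) * L ≤ ε / 2 * (L : ℝ) ^ 2 := by
      have := mul_le_mul_of_nonneg_right h7 hLp.le
      nlinarith
    push_cast at h6 ⊢
    nlinarith
  linarith

end Pool.Agent.Helper24.EA
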