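import Pool.Agent.Helper24.EA.D

/-!
# The limit field
-/

set_option autoImplicit false
set_option linter.unusedSectionVars false

open MeasureTheory Measure Filter Topology

namespace Pool.Agent.Helper24.EA

open Pool.Agent.K3h93.EA Pool.Agent.K3h93.EF
open Pool.Agent.R239.EA (dC nx u GI Gn bx tb Lw Inf spin GA)

variable {μ : Measure ℝ} [IsProbabilityMeasure μ]
variable {w w' : ℕ → (E → ℝ) → (V → ℝ) → ℝ} {σ σ' : ℕ → (E → ℝ) → V → ℝ}
variable {i : Fin 2}

/-- the probability of a disagreement with the limit field -/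
noncomputable def Gq (μ : Measure ℝ) (m : (E → ℝ) → ℝ) (i : Fin 2) (s : (E → ℝ) → V → ℝ)
    (x : V) : ℝ :=
  (infinitePi fun _ : E => μ).real {J | bp (s J) (st x (0, i)) ≠ sg (m (sh x J))}

lemma Um.ae_one {m : (E → ℝ) → ℝ} {e : E} (hm : Um μ e m) (hk : ki μ m = 0) :
    ∀ᵐ J ∂(infinitePi fun _ : E => μ), sg (m J) = m J := by
  have i1 : Integrable (fun J => |m J|) (infinitePi fun _ : E => μ) :=
    int_bdd μ hm.meas.abs (C := 1) fun J => by rw [abs_abs]; exact hm.le J
  have h1 : ∫ J, (1 - |m J|) ∂(infinitePi fun _ : E => μ) = 0 := by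
    rw [integral_sub (integrable_const _) i1, integral_const, probReal_univ, one_smul]
    unfold ki at hk
    linarith
  rw [integral_eq_zero_iff_of_nonneg (fun J => sub_nonneg.2 (hm.le J))
    ((integrable_const _).sub i1)] at h1
  filter_upwards [h1] with J hJ
  simp only [Pi.zero_apply] at hJ
  have h2 : |m J| = 1 := by linarith
  refine sg_of ?_
  rcases abs_eq (zero_le_one) |>.1 h2 with h | h
  · exact Or.inl h
  · exact Or.inr h

lemma Um.conv {m : (E → ℝ) → ℝ} (hm : Um μ (0, i) m) (hk : ki μ m = 0) (hs : Sq μ w σ) :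
    Tendsto (fun n : ℕ => (∑ a ∈ pos n, Gq μ m i (σ n) a) / (n : ℝ) ^ 2) atTop (𝓝 0) := by
  have h0 : ∀ n : ℕ, 0 ≤ (∑ a ∈ pos n, Gq μ m i (σ n) a) / (n : ℝ) ^ 2 := fun n =>
    div_nonneg (Finset.sum_nonneg fun a _ => measureReal_nonneg) (sq_nonneg _)
  rw [Metric.tendsto_atTop]
  intro ε hε
  have hka := hm.ka_tendsto
  rw [hk] at hka
  obtain ⟨F, hF⟩ := (hka.eventually (gt_mem_nhds (show (0 : ℝ) < ε / 4 by linarith))).exists
  have h1 := (hm.br_tendsto hs F).eventually (gt_mem_nhds (show ka μ m F < ka μ m F + ε / 4 by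
    linarith))
  obtain ⟨N, hN⟩ := eventually_atTop.1 h1
  refine ⟨max N 1, fun n hn => ?_⟩
  have hn1 : 1 ≤ n := le_trans (le_max_right _ _) hn
  have h2 := hN n (le_trans (le_max_left _ _) hn)
  rw [Real.dist_eq, sub_zero, abs_of_nonneg (h0 n)]
  have h3 : (infinitePi fun _ : E => μ).real {J | br μ m F J ≠ sg (m J)} = ka μ m F := by
    have h5 := prob_ne (infinitePi fun _ : E => μ) (hm.br_rl F).meas (sg_meas.comp hm.meas)
      (Eventually.of_forall (hm.br_rl F).pm) (Eventually.of_forall fun J => sg_pm _)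
    refine h5.trans ?_
    unfold ka
    rw [← hm.int_br F]
    congr 2
    refine integral_congr_ae ?_
    filter_upwards [hm.ae_one hk] with J hJ
    rw [Function.comp_apply, hJ]
  have h4 : (∑ a ∈ pos n, Gq μ m i (σ n) a) / (n : ℝ) ^ 2 ≤
      Fl μ (0, i) (fun _ => br μ m F) (σ n) n + ka μ m F := by
    rw [← avg_const hn1 (ka μ m F)]
    unfold Fl
    rw [← add_div, ← Finset.sum_add_distrib]
    refine div_le_div_of_nonneg_right (Finset.sum_le_sum fun a _ => ?_) (sq_nonneg _)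
    have h5 : (infinitePi fun _ : E => μ).real {J | br μ m F (sh a J) ≠ sg (m (sh a J))} =
        ka μ m F := by
      rw [← h3]
      have hms : MeasurableSet {J | br μ m F J ≠ sg (m J)} :=
        (measurableSet_eq_fun (hm.br_rl F).meas (sg_meas.comp hm.meas)).compl
      rw [measureReal_def, measureReal_def,
        ← (sh_law μ a).measure_preimage hms.nullMeasurableSet]
      rfl
    rw [← h5]
    unfold Gq
    refine (measureReal_mono (μ := infinitePi fun _ : E => μ) (s₂ :=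
      {J | br μ m F (sh a J) ≠ bp (σ n J) (st a (0, i))} ∪
        {J | br μ m F (sh a J) ≠ sg (m (sh a J))}) fun J hJ => ?_).trans
      (measureReal_union_le _ _)
    by_contra hc
    simp only [Set.mem_union, Set.mem_ofPred_eq, not_or, not_not] at hc
    exact hJ (hc.1.symm.trans hc.2)
  linarith

/-! ### The field -/

/-- the limit field -/
noncomputable def BB (m : Fin 2 → (E → ℝ) → ℝ) (J : E → ℝ) (e : E) : ℝ := sg (m e.2 (sh e.1 J))

lemma BB_sh (m : Fin 2 → (E → ℝ) → ℝ) (a : V) (J : E → ℝ) (e : E) :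
    BB m (sh a J) e = BB m J (st a e) := by
  unfold BB
  rw [sh_sh]
  rfl

lemma BB_meas {m : Fin 2 → (E → ℝ) → ℝ} (hm : ∀ i, Measurable (m i)) (e : E) :
    Measurable fun J => BB m J e := sg_meas.comp ((hm e.2).comp (measurable_sh _))

/-- the field is given by a ground state in the box of radius `r` -/
def Gd (m : Fin 2 → (E → ℝ) → ℝ) (r : ℕ) (J : E → ℝ) : Prop :=
  ∃ Q ∈ (bx (0 : V) (r + 1)).powerset, GI (bx 0 r) J (spin Q) ∧
    ∀ e ∈ tb (0 : V) r, bp (spin Q) e = BB m J e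

lemma Gd_meas {m : Fin 2 → (E → ℝ) → ℝ} (hm : ∀ i, Measurable (m i)) (r : ℕ) :
    MeasurableSet {J | Gd m r J} := by
  classical
  have h1 : {J | Gd m r J} = ⋃ Q ∈ (bx (0 : V) (r + 1)).powerset,
      ({J | GI (bx 0 r) J (spin Q)} ∩ ⋂ e ∈ tb (0 : V) r, {J | bp (spin Q) e = BB m J e}) := by
    ext J
    simp only [Gd, Set.mem_ofPred_eq, Set.mem_iUnion, Set.mem_inter_iff, Set.mem_iInter,
      exists_prop]
  rw [h1]
  refine Finset.measurableSet_biUnion _ fun Q _ =>
    (Pool.Agent.R239.EA.GI_meas _ _).inter (Finset.measurableSet_biInter _ fun e _ => ?_)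
  exact measurableSet_eq_fun measurable_const (BB_meas hm e)

lemma Gd_of {m : Fin 2 → (E → ℝ) → ℝ} {r : ℕ} {J : E → ℝ} {s : V → ℝ} (h : GI (bx 0 r) J s)
    (h' : ∀ e ∈ tb (0 : V) r, bp s e = BB m J e) : Gd m r J := by
  classical
  have h1 : ∀ x ∈ bx (0 : V) (r + 1), s x = spin ((bx (0 : V) (r + 1)).filter fun x => s x = -1) x := by
    intro x hx
    unfold spin
    by_cases h2 : s x = -1
    · rw [if_pos (Finset.mem_filter.2 ⟨hx, h2⟩), h2]
    · have hn : x ∉ (bx (0 : V) (r + 1)).filter fun x => s x = -1 :=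
        fun h' => h2 (Finset.mem_filter.1 h').2
      rw [if_neg hn]
      rcases h.1 x with h' | h'
      · exact h'
      · exact absurd h' h2
  refine ⟨_, Finset.mem_powerset.2 (Finset.filter_subset _ _),
    Pool.Agent.R239.EA.GI_congr (fun _ _ => rfl) h1 (Pool.Agent.R239.EA.spin_pm _) h,
    fun e he => ?_⟩
  rw [← h' e he, bp_nx, bp_nx]
  have h2 := Pool.Agent.R239.EA.tb_ends he
  rw [← h1 _ h2.1, ← h1 _ h2.2]

lemma dp_card_ge {n k : ℕ} (h : 4 * k ≤ n) : (n : ℝ) ^ 2 / 4 ≤ ((dp n k).card : ℝ) := by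
  have h1 : (dp n k).card = (n - 2 * k) ^ 2 := by
    unfold dp
    rw [Fintype.card_piFinset]
    simp only [Int.card_Ico, Finset.prod_const, Finset.card_univ, Fintype.card_fin]
    congr 1
    omega
  rw [h1]
  have h2 : (n : ℝ) / 2 ≤ ((n - 2 * k : ℕ) : ℝ) := by
    have : n ≤ 2 * (n - 2 * k) := by omega
    have h3 : (n : ℝ) ≤ 2 * ((n - 2 * k : ℕ) : ℝ) := by exact_mod_cast this
    linarith
  have h3 : (0 : ℝ) ≤ (n : ℝ) / 2 := by positivity
  push_cast
  nlinarith

lemma Gd_ae {m : Fin 2 → (E → ℝ) → ℝ} (hm : ∀ i, Um μ (0, i) (m i)) (hk : ∀ i, ki μ (m i) = 0)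
    (hat : ∀ x, μ {x} = 0) (r : ℕ) : ∀ᵐ J ∂(infinitePi fun _ : E => μ), Gd m r J := by
  classical
  set P := infinitePi fun _ : E => μ with hP
  set N : Set (E → ℝ) := {J | ¬ Gd m r J} with hN
  have mN : MeasurableSet N := (Gd_meas (fun i => (hm i).meas) r).compl
  have hsq : Sq μ (fun _ _ _ => 0) fr := fr_sq
  -- one position
  have h1 : ∀ (n : ℕ) (a : V), a ∈ dp n (r + 2) →
      P.real N ≤ ∑ e ∈ tb (0 : V) r, Gq μ (m e.2) e.2 (fr n) (e.1 + a) := by
    intro n a ha
    have e1 : P.real N = P.real (sh a ⁻¹' N) := by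
      rw [measureReal_def, measureReal_def, (sh_law μ a).measure_preimage mN.nullMeasurableSet]
    rw [e1]
    have ha' : a ∈ dp n (r + 1) := by
      rw [mem_dp] at ha ⊢
      intro j
      have := ha j
      push_cast at this ⊢
      constructor <;> omega
    have h2 : P (sh a ⁻¹' N) ≤ P (⋃ e ∈ tb (0 : V) r,
        {J | bp (fr n J) (st (e.1 + a) (0, e.2)) ≠ sg (m e.2 (sh (e.1 + a) J))}) := by
      refine measure_mono_ae ?_
      filter_upwards [Sq.gi hsq hat ha'] with J hJ hJN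
      show J ∈ ⋃ e ∈ tb (0 : V) r,
        {J | bp (fr n J) (st (e.1 + a) (0, e.2)) ≠ sg (m e.2 (sh (e.1 + a) J))}
      by_contra hcon
      simp only [Set.mem_iUnion, Set.mem_ofPred_eq, not_exists, not_not] at hcon
      apply (show ¬ Gd m r (sh a J) from hJN)
      refine Gd_of (Pool.Agent.R239.EA.GI_shift hJ) fun e he => ?_
      have h3 := hcon e he
      rw [bp_shift, BB_sh]
      have h4 : st (e.1 + a) ((0, e.2) : E) = st a e := by unfold st; simp
      rw [h4] at h3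
      rw [h3]
      rfl
    have h3 : P.real (sh a ⁻¹' N) ≤ P.real (⋃ e ∈ tb (0 : V) r,
        {J | bp (fr n J) (st (e.1 + a) (0, e.2)) ≠ sg (m e.2 (sh (e.1 + a) J))}) :=
      ENNReal.toReal_mono (measure_ne_top _ _) h2
    exact h3.trans (measureReal_biUnion_finset_le _ _)
  -- all positions
  have h2 : ∀ n : ℕ, 4 * (r + 2) ≤ n → 1 ≤ n → P.real N / 4 ≤
      ∑ e ∈ tb (0 : V) r, (∑ x ∈ pos n, Gq μ (m e.2) e.2 (fr n) x) / (n : ℝ) ^ 2 := by
    intro n hn hn1
    have hn2 : (0 : ℝ) < (n : ℝ) ^ 2 := by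
      have : (0 : ℝ) < n := by exact_mod_cast hn1
      positivity
    rw [← Finset.sum_div, le_div_iff₀ hn2]
    have h3 : P.real N / 4 * (n : ℝ) ^ 2 ≤ (dp n (r + 2)).card * P.real N := by
      have := dp_card_ge hn
      have h4 : 0 ≤ P.real N := measureReal_nonneg
      nlinarith
    refine h3.trans ?_
    have h4 : (dp n (r + 2)).card * P.real N ≤
        ∑ a ∈ dp n (r + 2), ∑ e ∈ tb (0 : V) r, Gq μ (m e.2) e.2 (fr n) (e.1 + a) := by
      have := Finset.card_nsmul_le_sum (dp n (r + 2))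
        (fun a => ∑ e ∈ tb (0 : V) r, Gq μ (m e.2) e.2 (fr n) (e.1 + a)) (P.real N) (h1 n)
      rwa [nsmul_eq_mul] at this
    refine h4.trans ?_
    rw [Finset.sum_comm]
    refine Finset.sum_le_sum fun e he => ?_
    rw [← Finset.sum_image (s := dp n (r + 2)) (g := fun a : V => e.1 + a)
      (f := fun x => Gq μ (m e.2) e.2 (fr n) x) fun a _ b _ h => add_left_cancel h]
    refine Finset.sum_le_sum_of_subset_of_nonneg (fun x hx => ?_)
      fun x _ _ => measureReal_nonneg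
    rw [Finset.mem_image] at hx
    obtain ⟨a, ha, rfl⟩ := hx
    rw [mem_dp] at ha
    rw [mem_pos]
    intro j
    have h5 := ha j
    have h6 := (Pool.Agent.R239.EA.tb_ends he).1
    rw [Pool.Agent.R239.EA.mem_bx'] at h6
    have h7 := abs_le.1 (h6 j)
    simp only [Pi.zero_apply, sub_zero] at h7
    rw [Pi.add_apply]
    push_cast at h5 h7
    constructor <;> omega
  have h3 : Tendsto (fun n : ℕ => ∑ e ∈ tb (0 : V) r,
      (∑ x ∈ pos n, Gq μ (m e.2) e.2 (fr n) x) / (n : ℝ) ^ 2) atTop (𝓝 0) := by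
    have := tendsto_finsetSum (tb (0 : V) r) fun e _ => (hm e.2).conv (hk e.2) hsq
    simpa using this
  have h4 : P.real N / 4 ≤ 0 := ge_of_tendsto h3 (by
    filter_upwards [eventually_ge_atTop (4 * (r + 2)), eventually_ge_atTop 1] with n a b
    exact h2 n a b)
  have h5 : P.real N = 0 := le_antisymm (by linarith) measureReal_nonneg
  rw [ae_iff]
  exact (measureReal_eq_zero_iff (measure_ne_top _ _)).1 h5

/-! ### The ground state -/

/-- the spins -/
noncomputable def SS (m : Fin 2 → (E → ℝ) → ℝ) (J : E → ℝ) (x : V) : ℝ :=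
  (∏ j ∈ Finset.range (x 0).natAbs, BB m J (![min 0 (x 0) + j, 0], 0)) *
    ∏ j ∈ Finset.range (x 1).natAbs, BB m J (![x 0, min 0 (x 1) + j], 1)

lemma SS_meas {m : Fin 2 → (E → ℝ) → ℝ} (hm : ∀ i, Measurable (m i)) : Measurable (SS m) := by
  refine measurable_pi_lambda _ fun x => ?_
  exact (Finset.measurable_prod _ fun j _ => BB_meas hm _).mul
    (Finset.measurable_prod _ fun j _ => BB_meas hm _)

lemma tel {s : ℤ → ℝ} (hs : ∀ k, s k = 1 ∨ s k = -1) (a : ℤ) (n : ℕ) :
    ∏ j ∈ Finset.range n, (s (a + j) * s (a + j + 1)) = s a * s (a + n) := by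
  induction n with
  | zero =>
    simp only [Finset.range_zero, Finset.prod_empty, Nat.cast_zero, add_zero]
    rcases hs a with h | h <;> rw [h] <;> norm_num
  | succ n ih =>
    rw [Finset.prod_range_succ, ih]
    push_cast
    rw [← add_assoc]
    rcases hs (a + n) with h | h <;> rw [h] <;> ring

lemma tel2 {s : ℤ → ℝ} (hs : ∀ k, s k = 1 ∨ s k = -1) (k : ℤ) :
    ∏ j ∈ Finset.range k.natAbs, (s (min 0 k + j) * s (min 0 k + j + 1)) = s 0 * s k := by
  rw [tel hs]
  rcases le_total 0 k with h | h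
  · rw [min_eq_left h]
    have : (0 : ℤ) + (k.natAbs : ℤ) = k := by omega
    rw [this]
  · rw [min_eq_right h]
    have : k + (k.natAbs : ℤ) = 0 := by omega
    rw [this, mul_comm]

lemma vec_add0 (t c : ℤ) : (![t, c] : V) + (Pi.single 0 (1 : ℤ) : V) = ![t + 1, c] := by
  funext j
  fin_cases j <;> simp

lemma vec_add1 (t c : ℤ) : (![t, c] : V) + (Pi.single 1 (1 : ℤ) : V) = ![t, c + 1] := by
  funext j
  fin_cases j <;> simp

lemma SS_eq {m : Fin 2 → (E → ℝ) → ℝ} {r : ℕ} {J : E → ℝ} {s : V → ℝ} (hs : Spin s)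
    (h' : ∀ e ∈ tb (0 : V) r, bp s e = BB m J e) {x : V} (hx : x ∈ bx (0 : V) r) :
    SS m J x = s 0 * s x := by
  rw [Pool.Agent.R239.EA.mem_bx'] at hx
  have hx0 := abs_le.1 (hx 0)
  have hx1 := abs_le.1 (hx 1)
  simp only [Pi.zero_apply, sub_zero] at hx0 hx1
  have hmem : ∀ (t c : ℤ) (k : Fin 2), -(r : ℤ) ≤ t → t ≤ r → -(r : ℤ) ≤ c → c ≤ r →
      ((![t, c], k) : E) ∈ tb (0 : V) r := by
    intro t c k h1 h2 h3 h4
    rw [Pool.Agent.R239.EA.mem_tb]
    left
    rw [Pool.Agent.R239.EA.mem_bx']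
    intro j
    fin_cases j
    · simp [abs_le, h1, h2]
    · simp [abs_le, h3, h4]
  have e1 : ∏ j ∈ Finset.range (x 0).natAbs, BB m J (![min 0 (x 0) + j, 0], 0) =
      s ![0, 0] * s ![x 0, 0] := by
    rw [← tel2 (s := fun t => s ![t, 0]) (fun t => hs _) (x 0)]
    refine Finset.prod_congr rfl fun j hj => ?_
    rw [Finset.mem_range] at hj
    rw [← h' _ (hmem _ _ _ (by omega) (by omega) (by omega) (by omega))]
    unfold bp
    simp only
    rw [vec_add0]
  have e2 : ∏ j ∈ Finset.range (x 1).natAbs, BB m J (![x 0, min 0 (x 1) + j], 1) =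
      s ![x 0, 0] * s ![x 0, x 1] := by
    rw [← tel2 (s := fun t => s ![x 0, t]) (fun t => hs _) (x 1)]
    refine Finset.prod_congr rfl fun j hj => ?_
    rw [Finset.mem_range] at hj
    rw [← h' _ (hmem _ _ _ (by omega) (by omega) (by omega) (by omega))]
    unfold bp
    simp only
    rw [vec_add1]
  unfold SS
  rw [e1, e2]
  have h0 : (![0, 0] : V) = 0 := by funext j; fin_cases j <;> simp
  have h1 : (![x 0, x 1] : V) = x := by funext j; fin_cases j <;> simp
  rw [h0, h1]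
  rcases hs ![x 0, 0] with h | h <;> rw [h] <;> ring

lemma mem_bx_nrm (x : V) {r : ℕ} (h : Pool.Agent.R239.EA.nrm x ≤ r) : x ∈ bx (0 : V) r := by
  rw [Pool.Agent.R239.EA.mem_bx, sub_zero]
  exact h

lemma SS_spec {m : Fin 2 → (E → ℝ) → ℝ} {J : E → ℝ} (h : ∀ r, Gd m r J) :
    GA J (SS m J) ∧ ∀ e, bp (SS m J) e = BB m J e := by
  choose Q hQ hG hB using h
  have hsp : ∀ r, Spin (spin (Q r)) := fun r => Pool.Agent.R239.EA.spin_pm _
  have hS : ∀ r, ∀ x ∈ bx (0 : V) r, SS m J x = spin (Q r) 0 * spin (Q r) x := fun r x hx =>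
    SS_eq (hsp r) (hB r) hx
  have hpm : Spin (SS m J) := by
    intro x
    rw [hS _ x (mem_bx_nrm x le_rfl)]
    rcases hsp (Pool.Agent.R239.EA.nrm x) 0 with a | a <;>
      rcases hsp (Pool.Agent.R239.EA.nrm x) x with b | b <;> rw [a, b] <;> norm_num
  constructor
  · intro r
    have h1 := hG (r + 1)
    have h2 : GI (bx (0 : V) (r + 1)) J (fun x => spin (Q (r + 1)) 0 * spin (Q (r + 1)) x) := by
      refine ⟨fun x => ?_, fun A hA hAB => ?_⟩
      · simp only
        rcases hsp (r + 1) 0 with a | a <;> rcases hsp (r + 1) x with b | b <;> rw [a, b] <;>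
          norm_num
      · refine lt_of_lt_of_eq (h1.2 A hA hAB) (finsum_mem_congr rfl fun e _ => ?_)
        rcases hsp (r + 1) 0 with a | a <;> rw [a] <;> ring
    refine Pool.Agent.R239.EA.GI_congr (fun _ _ => rfl) (fun x hx => ?_) hpm
      (h2.mono (Pool.Agent.R239.EA.bx_sub (by
        rw [sub_self, Pool.Agent.R239.EA.nrm_zero]; omega)))
    exact (hS (r + 1) x hx).symm
  · intro e
    set r := Pool.Agent.R239.EA.nrm e.1 + 1 with hr
    have h1 : e.1 ∈ bx (0 : V) r := mem_bx_nrm _ (by omega)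
    have h2 : nx e ∈ bx (0 : V) r := by
      refine mem_bx_nrm _ ?_
      have h3 := Pool.Agent.R239.EA.nrm_nx e
      have h4 := Pool.Agent.R239.EA.nrm_add (nx e - e.1) e.1
      rw [sub_add_cancel] at h4
      omega
    rw [← hB r e (Pool.Agent.R239.EA.mem_tb.2 (Or.inl h1)), bp_nx, bp_nx, hS r _ h1, hS r _ h2]
    rcases hsp r 0 with a | a <;> rw [a] <;> ring

end Pool.Agent.Helper24.EA
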