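import Pool.Agent.Helper24.EA.F

/-!
# Ergodicity and reflection
-/

set_option autoImplicit false
set_option linter.unusedSectionVars false

open MeasureTheory Measure Filter Topology

namespace Pool.Agent.Helper24.EA

open Pool.Agent.K3h93.EA Pool.Agent.K3h93.EF
open Pool.Agent.R239.EA (dC nx u GI Gn bx tb Lw Inf spin GA)

variable {μ : Measure ℝ} [IsProbabilityMeasure μ]

/-- translation invariant events are trivial -/
lemma erg {U : Set (E → ℝ)} (hU : MeasurableSet U) (hinv : ∀ a, sh a ⁻¹' U = U) :
    (infinitePi fun _ : E => μ).real U = 0 ∨ (infinitePi fun _ : E => μ).real U = 1 := by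
  set P := infinitePi fun _ : E => μ with hP
  set f : (E → ℝ) → ℝ := U.indicator fun _ => 1 with hf
  have mf : Measurable f := measurable_const.indicator hU
  have hf1 : ∀ J, |f J| ≤ 1 := by
    intro J
    by_cases h : J ∈ U
    · simp only [hf]; rw [Set.indicator_of_mem h]; norm_num
    · simp only [hf]; rw [Set.indicator_of_notMem h]; norm_num
  have hfinv : ∀ a J, f (sh a J) = f J := by
    intro a J
    have h1 : J ∈ U ↔ sh a J ∈ U := by
      conv_lhs => rw [← hinv a]
      rfl
    simp only [hf]
    by_cases h : J ∈ U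
    · rw [Set.indicator_of_mem h, Set.indicator_of_mem (h1.1 h)]
    · rw [Set.indicator_of_notMem h, Set.indicator_of_notMem fun h' => h (h1.2 h')]
  have hp : ∫ J, f J ∂P = P.real U := by
    simp only [hf]
    rw [integral_indicator hU, setIntegral_const, smul_eq_mul, mul_one]
  have hsq : ∀ J, f J * f J = f J := by
    intro J
    by_cases h : J ∈ U
    · simp only [hf]; rw [Set.indicator_of_mem h]; norm_num
    · simp only [hf]; rw [Set.indicator_of_notMem h]; norm_num
  have key : ∀ ε : ℝ, 0 < ε → |P.real U - P.real U ^ 2| ≤ 2 * ε := by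
    intro ε hε
    have h1 := approx μ mf hf1 (I := fun M => ((bM M : Finset E) : Set E)) bM_exhaust
    rw [Metric.tendsto_atTop] at h1
    obtain ⟨M, hM⟩ := h1 ε hε
    have h2 := hM M le_rfl
    rw [Real.dist_eq, sub_zero] at h2
    have h2' := lt_of_abs_lt h2
    set W : Set E := ((bM M : Finset E) : Set E) with hW
    set c : (E → ℝ) → ℝ := CE μ W f with hc
    have mc : Measurable c := CE_meas μ mf W
    have hc1 : ∀ J, |c J| ≤ 1 := CE_le μ hf1 W
    have hcd : Dep W c := CE_dep μ W f
    -- the distance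
    have mp : Measurable fun p : (E → ℝ) × (E → ℝ) => f (patch Wᶜ p.1 p.2) :=
      mf.comp (measurable_patch _)
    have i1 : Integrable (fun p : (E → ℝ) × (E → ℝ) => |f p.1 - f (patch Wᶜ p.1 p.2)|)
        (P.prod P) :=
      pp_bdd μ ((mf.comp measurable_fst).sub mp).abs (C := 1 + 1) fun p => by
        rw [abs_abs]; exact (abs_sub _ _).trans (add_le_add (hf1 _) (hf1 _))
    have iD : Integrable (fun J => |f J - c J|) P :=
      int_bdd μ (mf.sub mc).abs (C := 1 + 1) fun J => by
        rw [abs_abs]; exact (abs_sub _ _).trans (add_le_add (hf1 _) (hc1 _))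
    have h4 : ∫ J, |f J - c J| ∂P ≤ ε := by
      refine le_trans ?_ h2'.le
      rw [integral_prod _ i1]
      refine integral_mono iD i1.integral_prod_left fun J => ?_
      simp only
      have iJ : Integrable (fun y => f (patch Wᶜ J y)) P :=
        int_bdd μ (mp.comp (measurable_const.prodMk measurable_id)) fun y => hf1 _
      have e1 : f J - c J = ∫ y, (f J - f (patch Wᶜ J y)) ∂P := by
        rw [integral_sub (integrable_const _) iJ, integral_const, probReal_univ, one_smul]
        rfl
      rw [e1]
      exact abs_integral_le_integral_abs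
    -- a far translation
    set v : V := fun _ => 2 * (M : ℤ) with hv
    set W' : Set E := {e | st (-v) e ∈ W} with hW'
    have hdis : ∀ e ∈ W, e ∉ W' := by
      intro e he he'
      simp only [hW, hW', Set.mem_ofPred_eq, Finset.mem_coe, mem_bM] at he he'
      have h5 := he 0
      have h6 := he' 0
      unfold st at h6
      simp only [Pi.add_apply, Pi.neg_apply, hv] at h6
      omega
    have hcd' : Dep W' (fun J => c (sh v J)) := by
      intro J J' h
      refine hcd _ _ fun e he => ?_
      rw [sh_apply, sh_apply]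
      refine h _ ?_
      simp only [hW', Set.mem_ofPred_eq]
      rw [st_neg]
      exact he
    have mcs : Measurable fun J => c (sh v J) := mc.comp (measurable_sh v)
    have hCEc : ∀ J, CE μ W' c J = ∫ y, c y ∂P := by
      intro J
      unfold CE
      refine integral_congr_ae (Eventually.of_forall fun y => ?_)
      refine hcd _ _ fun e he => patch_mem (show e ∈ W'ᶜ from hdis e he) _ _
    have hic : ∫ J, c J ∂P = P.real U := by
      have := CE_mul μ mf hf1 (u := fun _ => (1 : ℝ)) measurable_const (D := 1)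
        (fun _ => by norm_num) (I := W) (fun _ _ _ => rfl)
      simp only [mul_one] at this
      rw [← hp]
      exact this
    have hshift : ∀ g : (E → ℝ) → ℝ, Measurable g → ∫ J, g (sh v J) ∂P = ∫ J, g J ∂P := by
      intro g hg
      have := integral_map (μ := P) (φ := sh v) (measurable_sh v).aemeasurable
        (f := g) hg.aestronglyMeasurable
      rw [(sh_law μ v).map_eq] at this
      exact this.symm
    have hcc : ∫ J, c J * c (sh v J) ∂P = P.real U ^ 2 := by
      have h5 := CE_mul μ mc hc1 (u := fun J => c (sh v J)) mcs (D := 1) (fun _ => hc1 _) hcd'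
      rw [← h5]
      simp only [hCEc]
      rw [integral_const_mul, hshift c mc, hic, pow_two]
    have hff : ∫ J, f J * f (sh v J) ∂P = P.real U := by
      rw [← hp]
      refine integral_congr_ae (Eventually.of_forall fun J => ?_)
      simp only
      rw [hfinv, hsq]
    have iff' : Integrable (fun J => f J * f (sh v J)) P :=
      int_bdd μ (mf.mul (mf.comp (measurable_sh v))) (C := 1 * 1) fun J => by
        rw [abs_mul]; exact mul_le_mul (hf1 _) (hf1 _) (abs_nonneg _) zero_le_one
    have icc : Integrable (fun J => c J * c (sh v J)) P :=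
      int_bdd μ (mc.mul mcs) (C := 1 * 1) fun J => by
        rw [abs_mul]; exact mul_le_mul (hc1 _) (hc1 _) (abs_nonneg _) zero_le_one
    have iD' : Integrable (fun J => |f (sh v J) - c (sh v J)|) P :=
      int_bdd μ ((mf.comp (measurable_sh v)).sub mcs).abs (C := 1 + 1) fun J => by
        rw [abs_abs]; exact (abs_sub _ _).trans (add_le_add (hf1 _) (hc1 _))
    rw [← hcc]
    nth_rewrite 1 [← hff]
    rw [← integral_sub iff' icc]
    refine abs_integral_le_integral_abs.trans ?_
    have h6 : ∫ J, |f J * f (sh v J) - c J * c (sh v J)| ∂P ≤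
        ∫ J, (|f J - c J| + |f (sh v J) - c (sh v J)|) ∂P := by
      refine integral_mono (iff'.sub icc).abs (iD.add iD') fun J => ?_
      simp only
      have e1 : f J * f (sh v J) - c J * c (sh v J) =
          (f J - c J) * f (sh v J) + c J * (f (sh v J) - c (sh v J)) := by ring
      rw [e1]
      refine (abs_add_le _ _).trans ?_
      rw [abs_mul, abs_mul]
      have a1 := hf1 (sh v J)
      have a2 := hc1 J
      have a3 := abs_nonneg (f J - c J)
      have a4 := abs_nonneg (f (sh v J) - c (sh v J))
      nlinarith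
    rw [integral_add iD iD', hshift (fun J => |f J - c J|) (mf.sub mc).abs] at h6
    linarith
  have h0 : P.real U - P.real U ^ 2 = 0 := by
    by_contra hne
    have h1 := key (|P.real U - P.real U ^ 2| / 4) (by positivity)
    have h2 : 0 < |P.real U - P.real U ^ 2| := abs_pos.2 hne
    linarith
  have h1 : P.real U * (1 - P.real U) = 0 := by linarith [h0, pow_two (P.real U)]
  rcases mul_eq_zero.1 h1 with h | h
  · exact Or.inl h
  · exact Or.inr (by linarith)

/-- if the limit error is positive then there are incongruent ground states -/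
lemma Um.incongruent {m : (E → ℝ) → ℝ} {i : Fin 2} (hm : Um μ (0, i) m) (hat : ∀ x, μ {x} = 0)
    (hk : ki μ m ≠ 0) : ∀ᵐ J ∂(infinitePi fun _ : E => μ), ∃ σ τ, GA J σ ∧ GA J τ ∧
      ¬ (τ = σ ∨ τ = -σ) := by
  classical
  set P := infinitePi fun _ : E => μ with hP
  set U : Set (E → ℝ) := ⋃ w : V, ⋂ n : ℕ, {J | Inf J w n} with hU
  have mU : MeasurableSet U :=
    MeasurableSet.iUnion fun w => MeasurableSet.iInter fun n => Pool.Agent.R239.EA.inf_meas w n
  have hsh : ∀ (a w : V) (J : E → ℝ) (n : ℕ), Inf J (w + a) n → Inf (sh a J) w n := by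
    intro a w J n h
    obtain ⟨σ, τ, h1, h2, k, hk⟩ := h
    have key : ∀ s : V → ℝ, GI (bx (w + a) n) J s → GI (bx w n) (sh a J) (fun x => s (x + a)) := by
      intro s hs
      have h3 := Pool.Agent.R239.EA.GI_shift hs
      -- translate back
      have h4 : ∀ (J : E → ℝ) (s : V → ℝ), GI (bx 0 n) (Pool.Agent.R239.EA.shw w J)
          (fun x => s (x + w)) → GI (bx w n) J s := by
        intro J s hs
        refine ⟨fun x => by have := hs.1 (x - w); simpa using this, fun A hA hAB => ?_⟩
        have h6 : A.image (fun x => x - w) ⊆ bx 0 n := by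
          intro x hx
          rw [Finset.mem_image] at hx
          obtain ⟨y, hy, rfl⟩ := hx
          have := hAB hy
          rw [Pool.Agent.R239.EA.mem_bx] at this ⊢
          rwa [sub_zero]
        have h7 := hs.2 (A.image fun x => x - w) (hA.image _) h6
        have hmem : ∀ x, x ∈ A.image (fun x => x - w) ↔ x + w ∈ A := by
          intro x
          rw [Finset.mem_image]
          constructor
          · rintro ⟨y, hy, rfl⟩
            rwa [sub_add_cancel]
          · intro hx; exact ⟨x + w, hx, add_sub_cancel_right _ _⟩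
        refine lt_of_lt_of_eq h7 ?_
        refine finsum_mem_eq_of_bijOn (fun e => (e.1 + w, e.2)) ⟨?_, ?_, ?_⟩ ?_
        · intro e he
          unfold dC at he ⊢
          simp only [Set.mem_ofPred_eq, Finset.mem_coe] at he ⊢
          rw [hmem, hmem] at he
          rw [Pool.Agent.R239.EA.nx_shift]
          exact he
        · intro e _ f _ hef
          simp only [Prod.mk.injEq] at hef
          exact Prod.ext (add_right_cancel hef.1) hef.2
        · intro e he
          refine ⟨(e.1 - w, e.2), ?_, by simp⟩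
          unfold dC at he ⊢
          simp only [Set.mem_ofPred_eq, Finset.mem_coe] at he ⊢
          have h3 : nx e = nx ((e.1 - w, e.2) : (Fin 2 → ℤ) × Fin 2) + w := by
            rw [← Pool.Agent.R239.EA.nx_shift]; simp
          rw [h3] at he
          rw [hmem, hmem, sub_add_cancel]
          exact he
        · intro e _
          unfold Pool.Agent.R239.EA.shw
          simp only
          rw [Pool.Agent.R239.EA.nx_shift]
      refine h4 _ _ ?_
      have e1 : Pool.Agent.R239.EA.shw w (sh a J) = Pool.Agent.R239.EA.shw (w + a) J := by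
        funext e
        unfold Pool.Agent.R239.EA.shw sh
        simp only [add_assoc]
      have e2 : (fun x : V => (fun x : V => s (x + a)) (x + w)) = fun x => s (x + (w + a)) := by
        funext x
        simp only [add_assoc]
      rw [e1, e2]
      exact h3
    refine ⟨_, _, key σ h1, key τ h2, k, ?_⟩
    unfold dC nx at hk ⊢
    simp only [Set.mem_ofPred_eq] at hk ⊢
    rw [add_right_comm]
    exact hk
  have hsh' : ∀ (a w : V) (J : E → ℝ) (n : ℕ), Inf (sh a J) w n → Inf J (w + a) n := by
    intro a w J n h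
    have h1 := hsh (-a) (w + a) (sh a J) n (by rwa [add_neg_cancel_right])
    rwa [sh_sh, neg_add_cancel, sh_zero] at h1
  have hinv : ∀ a, sh a ⁻¹' U = U := by
    intro a
    ext J
    simp only [hU, Set.mem_preimage, Set.mem_iUnion, Set.mem_iInter, Set.mem_ofPred_eq]
    constructor
    · rintro ⟨w, hw⟩
      exact ⟨w + a, fun n => hsh' a w J n (hw n)⟩
    · rintro ⟨w, hw⟩
      refine ⟨w - a, fun n => hsh a (w - a) J n ?_⟩
      rw [sub_add_cancel]
      exact hw n
  rcases erg (μ := μ) mU hinv with h | h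
  · exfalso
    apply hk
    refine hm.unique hat ?_
    rw [Pool.Agent.R239.EA.unique_iff (d := 2) μ le_rfl hat]
    have hanti : Antitone fun n => {J : E → ℝ | Inf J 0 n} := by
      intro n m hnm J hJ
      exact Pool.Agent.R239.EA.inf_anti hnm hJ
    have hlim : Tendsto (fun n => Lw μ 2 {J | Inf J 0 n}) atTop
        (𝓝 (Lw μ 2 (⋂ n, {J | Inf J 0 n}))) :=
      tendsto_measure_iInter_atTop
        (fun n => (Pool.Agent.R239.EA.inf_meas 0 n).nullMeasurableSet) hanti
        ⟨0, measure_ne_top _ _⟩
    have h0 : Lw μ 2 (⋂ n, {J | Inf J 0 n}) = 0 := by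
      have h1 : P U = 0 := (measureReal_eq_zero_iff (measure_ne_top _ _)).1 h
      refine measure_mono_null ?_ h1
      exact Set.subset_iUnion (fun w : V => ⋂ n : ℕ, {J | Inf J w n}) 0
    rwa [h0] at hlim
  · have h1 : P Uᶜ = 0 := by
      rw [prob_compl_eq_zero_iff mU]
      have h2 : P U = ENNReal.ofReal (P.real U) := (ENNReal.ofReal_toReal (measure_ne_top _ _)).symm
      rw [h2, h, ENNReal.ofReal_one]
    have h2 : ∀ᵐ J ∂P, J ∈ U := h1
    filter_upwards [h2] with J hJ
    simp only [hU, Set.mem_iUnion, Set.mem_iInter, Set.mem_ofPred_eq] at hJ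
    obtain ⟨w, hw⟩ := hJ
    -- some direction occurs for infinitely many radii
    have hdir : ∃ k : Fin 2, ∀ n : ℕ, ∃ σ τ, GI (bx w n) J σ ∧ GI (bx w n) J τ ∧
        (w, k) ∈ dC {x | σ x ≠ τ x} := by
      by_contra hcon
      push Not at hcon
      choose N hN using hcon
      obtain ⟨σ, τ, h1, h2, k, hk⟩ := hw (Finset.univ.sup N)
      have hs : bx w (N k) ⊆ bx w (Finset.univ.sup N) := by
        apply Pool.Agent.R239.EA.bx_sub
        rw [sub_self, Pool.Agent.R239.EA.nrm_zero, zero_add]
        exact Finset.le_sup (f := N) (Finset.mem_univ k)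
      exact hN k σ τ (h1.mono hs) (h2.mono hs) hk
    obtain ⟨k, hk⟩ := hdir
    obtain ⟨σ, τ, h3, h4, h5⟩ := Pool.Agent.R239.EA.compact_pair (J := J) w k True (fun n => by
      obtain ⟨σ, τ, a, b, c⟩ := hk (Pool.Agent.R239.EA.nrm w + n)
      have hs : bx (0 : V) n ⊆ bx w (Pool.Agent.R239.EA.nrm w + n) := by
        apply Pool.Agent.R239.EA.bx_sub
        rw [zero_sub, Pool.Agent.R239.EA.nrm_neg]
      exact ⟨σ, τ, a.mono hs, b.mono hs, fun _ => c⟩)
    exact ⟨σ, τ, h3, h4, Pool.Agent.R239.EA.not_congruent (h3 0).1 (h5 trivial)⟩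

/-! ### Reflection -/

/-- exchange of the two coordinates -/
def rV (x : V) : V := fun j => x (Equiv.swap 0 1 j)

/-- exchange of the two coordinates, for bonds -/
def rE (e : E) : E := (rV e.1, Equiv.swap 0 1 e.2)

/-- exchange of the two coordinates, for couplings -/
def rJ (J : E → ℝ) : E → ℝ := fun e => J (rE e)

lemma rV_rV (x : V) : rV (rV x) = x := by
  funext j
  unfold rV
  rw [Equiv.swap_apply_self]

lemma rE_rE (e : E) : rE (rE e) = e := by
  unfold rE
  simp only
  rw [rV_rV, Equiv.swap_apply_self]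

lemma rV_add (x y : V) : rV (x + y) = rV x + rV y := rfl

lemma rV_single (k : Fin 2) (c : ℤ) :
    rV (Pi.single k c : V) = (Pi.single (Equiv.swap 0 1 k) c : V) := by
  funext j
  unfold rV
  fin_cases k <;> fin_cases j <;> simp

lemma rE_st (a : V) (e : E) : rE (st a e) = st (rV a) (rE e) := by
  unfold rE st
  simp only
  rw [rV_add]

lemma rJ_law : MeasurePreserving rJ (infinitePi fun _ : E => μ) (infinitePi fun _ : E => μ) := by
  refine ⟨by unfold rJ; fun_prop, ?_⟩
  exact map_infinitePi_infinitePi_of_inj (P := fun _ : E => μ) (f := rE)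
    (Function.LeftInverse.injective rE_rE)

lemma bp_rV (s : V → ℝ) (e : E) : bp (fun v => s (rV v)) e = bp s (rE e) := by
  unfold bp rE
  simp only
  rw [rV_add, rV_single]

lemma rE_FB {n : ℕ} {e : E} : rE e ∈ FB n ↔ e ∈ FB n := by
  have key : ∀ e : E, e ∈ FB n → rE e ∈ FB n := by
    intro e he
    rw [mem_FB] at he ⊢
    unfold rE rV
    simp only
    refine ⟨fun j => he.1 _, ?_⟩
    rw [Equiv.swap_apply_self]
    exact he.2
  exact ⟨fun h => by have := key _ h; rwa [rE_rE] at this, key e⟩

lemma HE_r (n : ℕ) (J : E → ℝ) (s : V → ℝ) :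
    HE n (fun _ _ => 0) J (fun v => s (rV v)) = HE n (fun _ _ => 0) (rJ J) s := by
  unfold HE
  congr 1
  refine Finset.sum_nbij' (i := rE) (j := rE) (fun e he => rE_FB.2 he) (fun e he => rE_FB.2 he)
    (fun e _ => rE_rE e) (fun e _ => rE_rE e) fun e _ => ?_
  rw [bp_rV]
  unfold rJ
  rw [rE_rE]

/-- the reflected free ground states -/
noncomputable def fr' (n : ℕ) (J : E → ℝ) : V → ℝ := fun v => fr n (rJ J) (rV v)

lemma fr'_sq : Sq μ (fun _ _ _ => 0) fr' := by
  refine ⟨bt_zero, fun n => ?_, fun n => Eventually.of_forall fun J => ⟨fun v => ?_, fun s hs => ?_⟩⟩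
  · refine measurable_pi_lambda _ fun v => ?_
    exact (measurable_pi_apply (rV v)).comp ((fr_meas n).comp (rJ_law (μ := μ)).measurable)
  · exact (fr_gs n (rJ J)).1 _
  · have h1 : (fun v => s (rV (rV v))) = s := by funext v; rw [rV_rV]
    have h2 := HE_r n J (fun v => s (rV v))
    simp only [h1] at h2
    rw [h2]
    unfold fr'
    rw [HE_r n J (fr n (rJ J))]
    exact (fr_gs n (rJ J)).2 _ fun v => hs _

lemma Fl_r {F : Finset E} {f : (E → ℝ) → ℝ} (hf : Rl F f) (i : Fin 2) (n : ℕ) :
    Fl μ (0, Equiv.swap 0 1 i) (fun _ => f) (fr' n) n = Fl μ (0, i) (fun _ J => f (rJ J)) (fr n) n := by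
  unfold Fl
  congr 1
  refine Finset.sum_nbij' (i := rV) (j := rV) (fun a ha => ?_) (fun a ha => ?_)
    (fun a _ => rV_rV a) (fun a _ => rV_rV a) fun a _ => ?_
  · rw [mem_pos] at ha ⊢; exact fun j => ha _
  · rw [mem_pos] at ha ⊢; exact fun j => ha _
  · have hms : MeasurableSet {J | f (rJ (sh (rV a) J)) ≠ bp (fr n J) (st (rV a) (0, i))} :=
      (measurableSet_eq_fun (hf.meas.comp ((rJ_law (μ := μ)).measurable.comp (measurable_sh _)))
        (bpm (fr_meas n) _)).compl
    rw [measureReal_def, measureReal_def,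
      ← (rJ_law (μ := μ)).measure_preimage hms.nullMeasurableSet]
    congr 2
    ext J
    simp only [Set.mem_preimage, Set.mem_ofPred_eq]
    unfold fr'
    rw [bp_rV, rE_st]
    have h1 : rJ (sh (rV a) (rJ J)) = sh a J := by
      funext e
      unfold rJ
      rw [sh_apply, sh_apply, rE_st, rV_rV, rE_rE]
    have h2 : rE ((0, Equiv.swap 0 1 i) : E) = (0, i) := by
      unfold rE
      simp only
      rw [Equiv.swap_apply_self]
      rfl
    rw [h1, h2]

lemma ki_r {m : Fin 2 → (E → ℝ) → ℝ} (hm : ∀ i, Um μ (0, i) (m i)) (i : Fin 2) :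
    ki μ (m i) ≤ ki μ (m (Equiv.swap 0 1 i)) := by
  classical
  have h1 := (hm (Equiv.swap 0 1 i)).ka_tendsto
  refine ge_of_tendsto h1 (Eventually.of_forall fun F => ?_)
  refine le_of_forall_pos_le_add fun ε hε => ?_
  have h2 := (hm (Equiv.swap 0 1 i)).br_tendsto (fr'_sq (μ := μ)) F
  have hr : Rl (F.image rE) (fun J => br μ (m (Equiv.swap 0 1 i)) F (rJ J)) := by
    have h3 := (hm (Equiv.swap 0 1 i)).br_rl F
    refine ⟨h3.meas.comp (rJ_law (μ := μ)).measurable, fun J => h3.pm _, fun J J' h => ?_⟩
    refine h3.dep _ _ fun e he => ?_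
    unfold rJ
    exact h _ (Finset.mem_coe.2 (Finset.mem_image_of_mem rE (Finset.mem_coe.1 he)))
  have h4 := (hm i).rule_ge (fr_sq (μ := μ)) (g := fun _ _ J =>
    br μ (m (Equiv.swap 0 1 i)) F (rJ J)) (fun _ _ => hr) hε
  have h5 := (hm i).ki_le (F.image rE)
  have h6 : ∀ᶠ n : ℕ in atTop, ki μ (m i) - ε ≤
      Fl μ (0, Equiv.swap 0 1 i) (fun _ => br μ (m (Equiv.swap 0 1 i)) F) (fr' n) n := by
    filter_upwards [h4] with n hn
    rw [Fl_r ((hm (Equiv.swap 0 1 i)).br_rl F) i n]
    linarith
  have h7 := ge_of_tendsto h2 h6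
  linarith

/-- the limit error does not depend on the direction -/
lemma ki_eq {m : Fin 2 → (E → ℝ) → ℝ} (hm : ∀ i, Um μ (0, i) (m i)) (i j : Fin 2) :
    ki μ (m i) = ki μ (m j) := by
  have h0 := ki_r hm 0
  have h1 := ki_r hm 1
  rw [Equiv.swap_apply_left] at h0
  rw [Equiv.swap_apply_right] at h1
  fin_cases i <;> fin_cases j
  · rfl
  · exact le_antisymm h0 h1
  · exact le_antisymm h1 h0
  · rfl

end Pool.Agent.Helper24.EA
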