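import Pool.Agent.Helper24.EA.G

/-!
# Resampling of the couplings outside of a window
-/

set_option autoImplicit false
set_option linter.unusedSectionVars false

open MeasureTheory Measure Filter Topology

namespace Pool.Agent.Helper24.EA

open Pool.Agent.K3h93.EA Pool.Agent.K3h93.EF
open Pool.Agent.R239.EA (dC nx u GI Gn bx tb Lw Inf spin GA)

variable {μ : Measure ℝ} [IsProbabilityMeasure μ]
variable {w w' : ℕ → (E → ℝ) → (V → ℝ) → ℝ} {σ σ' : ℕ → (E → ℝ) → V → ℝ}
variable {m : (E → ℝ) → ℝ} {i : Fin 2}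

open Classical in
/-- the couplings outside of the window are resampled -/
noncomputable def rs (F : Finset E) (a : V) (J K : E → ℝ) : E → ℝ :=
  fun e => if (e.1 - a, e.2) ∈ F then J e else K e

/-- the bonds outside of the window -/
def oF (F : Finset E) (a : V) : Set E := {e | (e.1 - a, e.2) ∉ F}

lemma rs_eq (F : Finset E) (a : V) (J K : E → ℝ) : rs F a J K = patch (oF F a) J K := by
  classical
  funext e
  unfold rs
  by_cases h : (e.1 - a, e.2) ∈ F
  · rw [if_pos h, patch_not (show e ∉ oF F a from not_not.2 h)]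
  · rw [if_neg h, patch_mem (show e ∈ oF F a from h)]

lemma rs_meas (F : Finset E) (a : V) : Measurable fun p : (E → ℝ) × (E → ℝ) =>
    rs F a p.1 p.2 := by
  simp only [rs_eq]
  exact measurable_patch _

lemma rs_law (F : Finset E) (a : V) : MeasurePreserving (fun p : (E → ℝ) × (E → ℝ) =>
    rs F a p.1 p.2) ((infinitePi fun _ : E => μ).prod (infinitePi fun _ : E => μ))
    (infinitePi fun _ : E => μ) := by
  simp only [rs_eq]
  exact measurePreserving_fst.comp (sw_law μ (oF F a))

lemma rs_win {F : Finset E} {a : V} {J K : E → ℝ} {e : E} (he : e ∈ F) :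
    sh a (rs F a J K) e = sh a J e := by
  classical
  rw [sh_apply, sh_apply]
  unfold rs st
  simp only [add_sub_cancel_right]
  rw [if_pos he]

/-- the average probability that the bond changes -/
noncomputable def Sn (μ : Measure ℝ) (e : E) (F : Finset E) (s : (E → ℝ) → V → ℝ) (n : ℕ) : ℝ :=
  (∑ a ∈ pos n, ((infinitePi fun _ : E => μ).prod (infinitePi fun _ : E => μ)).real
    {p | bp (s p.1) (st a e) ≠ bp (s (rs F a p.1 p.2)) (st a e)}) / (n : ℝ) ^ 2

lemma Um.sn_lt {e : E} (hm : Um μ e m) (hs : Sq μ w σ) (F : Finset E) {ε : ℝ} (hε : 0 < ε) :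
    ∀ᶠ n : ℕ in atTop, Sn μ e F (σ n) n < 2 * ka μ m F + ε := by
  set P := infinitePi fun _ : E => μ with hP
  have h1 := (hm.br_tendsto hs F).eventually (gt_mem_nhds (show ka μ m F < ka μ m F + ε / 2 by
    linarith))
  filter_upwards [h1] with n hn
  set f := br μ m F with hf
  have hr : Rl F f := hm.br_rl F
  refine lt_of_le_of_lt (b := 2 * Fl μ e (fun _ => f) (σ n) n) ?_ (by linarith)
  unfold Sn Fl
  rw [← mul_div_assoc, Finset.mul_sum]
  refine div_le_div_of_nonneg_right (Finset.sum_le_sum fun a _ => ?_) (sq_nonneg _)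
  have mB : MeasurableSet {J | f (sh a J) ≠ bp (σ n J) (st a e)} :=
    (measurableSet_eq_fun (hr.meas.comp (measurable_sh a)) (bpm (hs.meas n) _)).compl
  have e1 : (P.prod P).real {p | f (sh a p.1) ≠ bp (σ n p.1) (st a e)} =
      P.real {J | f (sh a J) ≠ bp (σ n J) (st a e)} := by
    rw [measureReal_def, measureReal_def,
      ← (measurePreserving_fst (μ := P) (ν := P)).measure_preimage mB.nullMeasurableSet]
    rfl
  have e2 : (P.prod P).real {p | f (sh a (rs F a p.1 p.2)) ≠
      bp (σ n (rs F a p.1 p.2)) (st a e)} = P.real {J | f (sh a J) ≠ bp (σ n J) (st a e)} := by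
    rw [measureReal_def, measureReal_def,
      ← (rs_law (μ := μ) F a).measure_preimage mB.nullMeasurableSet]
    rfl
  have h2 : (P.prod P).real {p | bp (σ n p.1) (st a e) ≠ bp (σ n (rs F a p.1 p.2)) (st a e)} ≤
      (P.prod P).real {p | f (sh a p.1) ≠ bp (σ n p.1) (st a e)} +
        (P.prod P).real {p | f (sh a (rs F a p.1 p.2)) ≠
          bp (σ n (rs F a p.1 p.2)) (st a e)} := by
    refine (measureReal_mono (μ := P.prod P) (s₂ :=
      {p | f (sh a p.1) ≠ bp (σ n p.1) (st a e)} ∪ {p | f (sh a (rs F a p.1 p.2)) ≠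
          bp (σ n (rs F a p.1 p.2)) (st a e)}) fun p hp => ?_).trans (measureReal_union_le _ _)
    by_contra hc
    simp only [Set.mem_union, Set.mem_ofPred_eq, not_or, not_not] at hc
    have h3 : f (sh a (rs F a p.1 p.2)) = f (sh a p.1) :=
      hr.dep _ _ fun e' he' => rs_win (Finset.mem_coe.1 he')
    rw [h3] at hc
    exact hp (hc.1.symm.trans hc.2)
  rw [e1, e2] at h2
  linarith

lemma Um.lt_sn {e : E} (hm : Um μ e m) (hs : Sq μ w σ) (F : Finset E) {ε : ℝ} (hε : 0 < ε) :
    ∀ᶠ n : ℕ in atTop, ka μ m F - ε < Sn μ e F (σ n) n := by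
  classical
  set P := infinitePi fun _ : E => μ with hP
  obtain ⟨N, hN⟩ := hm.rule_unif hs F (show 0 < ε / 2 by linarith)
  filter_upwards [eventually_ge_atTop (max N 1)] with n hn
  have hn1 : 1 ≤ n := le_trans (le_max_right _ _) hn
  have hn2 : (0 : ℝ) < (n : ℝ) ^ 2 := by
    have : (0 : ℝ) < n := by exact_mod_cast hn1
    positivity
  -- the rules
  set g : (E → ℝ) → V → (E → ℝ) → ℝ := fun K a J =>
    sg (bp (σ n (rs F a (sh (-a) J) K)) (st a e)) with hg
  have mrK : ∀ (a : V) (K : E → ℝ), Measurable fun J : E → ℝ => rs F a J K := fun a K =>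
    (rs_meas F a).comp (measurable_id.prodMk measurable_const)
  have hgr : ∀ K a, Rl F (g K a) := by
    intro K a
    refine ⟨?_, fun J => sg_pm _, fun J J' h => ?_⟩
    · exact sg_meas.comp ((bpm (hs.meas n) _).comp ((mrK a K).comp (measurable_sh _)))
    · simp only [hg]
      have h1 : rs F a (sh (-a) J) K = rs F a (sh (-a) J') K := by
        funext e'
        unfold rs
        by_cases h2 : (e'.1 - a, e'.2) ∈ F
        · rw [if_pos h2, if_pos h2, sh_apply, sh_apply]
          have h3 : st (-a) e' = (e'.1 - a, e'.2) := by unfold st; rw [sub_eq_add_neg]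
          rw [h3]
          exact h _ (Finset.mem_coe.2 h2)
        · rw [if_neg h2, if_neg h2]
      rw [h1]
  -- the events
  set B : V → Set ((E → ℝ) × (E → ℝ)) := fun a =>
    {p | sg (bp (σ n (rs F a p.1 p.2)) (st a e)) ≠ bp (σ n p.1) (st a e)} with hB
  have mB : ∀ a, MeasurableSet (B a) := fun a =>
    (measurableSet_eq_fun (sg_meas.comp ((bpm (hs.meas n) _).comp (rs_meas F a)))
      ((bpm (hs.meas n) _).comp measurable_fst)).compl
  have hspin : ∀ᵐ p ∂(P.prod P), ∀ a, Spin (σ n (rs F a p.1 p.2)) := by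
    rw [ae_all_iff]
    intro a
    exact (rs_law (μ := μ) F a).quasiMeasurePreserving.ae (hs.spin n)
  have e1 : ∀ a, (P.prod P).real (B a) = (P.prod P).real
      {p | bp (σ n p.1) (st a e) ≠ bp (σ n (rs F a p.1 p.2)) (st a e)} := by
    intro a
    refine measureReal_congr ?_
    filter_upwards [hspin] with p hp
    refine eq_iff_iff.2 ?_
    show sg (bp (σ n (rs F a p.1 p.2)) (st a e)) ≠ bp (σ n p.1) (st a e) ↔
      bp (σ n p.1) (st a e) ≠ bp (σ n (rs F a p.1 p.2)) (st a e)
    rw [sg_of ((hp a).bp_cases _)]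
    exact ne_comm
  have h1 : ∀ K : E → ℝ, (ka μ m F - ε / 2) * (n : ℝ) ^ 2 ≤
      ∑ a ∈ pos n, P.real {J | (J, K) ∈ B a} := by
    intro K
    have h2 := hN n (le_trans (le_max_left _ _) hn) (g K) (hgr K)
    unfold Fl at h2
    rw [lt_div_iff₀ hn2] at h2
    refine h2.le.trans (le_of_eq (Finset.sum_congr rfl fun a _ => ?_))
    congr 1
    ext J
    simp only [Set.mem_ofPred_eq, hg, hB]
    rw [sh_sh, neg_add_cancel, sh_zero]
  have h2 : (ka μ m F - ε / 2) * (n : ℝ) ^ 2 ≤ ∑ a ∈ pos n, (P.prod P).real (B a) := by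
    have h3 : ∑ a ∈ pos n, (P.prod P).real (B a) =
        ∫ K, ∑ a ∈ pos n, P.real {J | (J, K) ∈ B a} ∂P := by
      rw [integral_finsetSum _ fun a _ => (fub P P (mB a)).2]
      exact Finset.sum_congr rfl fun a _ => (fub P P (mB a)).1
    rw [h3]
    have h4 : (ka μ m F - ε / 2) * (n : ℝ) ^ 2 =
        ∫ _K : E → ℝ, (ka μ m F - ε / 2) * (n : ℝ) ^ 2 ∂P := by
      rw [integral_const, probReal_univ, one_smul]
    rw [h4]
    exact integral_mono (integrable_const _)
      (integrable_finsetSum _ fun a _ => (fub P P (mB a)).2) h1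
  unfold Sn
  rw [lt_div_iff₀ hn2]
  rw [Finset.sum_congr rfl fun a _ => e1 a] at h2
  refine lt_of_lt_of_le ?_ h2
  nlinarith

/-! ### The partner as a family -/

lemma Um.partner_sq (hm : Um μ (0, i) m) (hs : Sq μ w σ) : ∃ w' σ', Sq μ w' σ' ∧
    (∀ n J J' t, w' n J t = w' n J' t) ∧
    ∀ ε : ℝ, 0 < ε → ∀ᶠ n : ℕ in atTop, ki μ m - ε < Ds μ (0, i) (σ n) (σ' n) n := by
  have key : ∀ n : ℕ, ∃ (w1 : (V → ℝ) → ℝ) (s1 : (E → ℝ) → V → ℝ), BT n (fun _ t => w1 t) ∧
      Measurable s1 ∧ (∀ J, GSB n (fun _ t => w1 t) J (s1 J)) ∧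
      (1 ≤ n → ki μ m - 1 / ((n : ℝ) + 1) ≤ Ds μ (0, i) (σ n) s1 n) := by
    intro n
    by_cases h : 1 ≤ n
    · obtain ⟨w1, s1, h1, h2, h3, h4⟩ := hm.partner h (hs.meas n) (hs.spin n)
        (show (0 : ℝ) < 1 / ((n : ℝ) + 1) by positivity)
      exact ⟨w1, s1, h1, h2, h3, fun _ => h4⟩
    · exact ⟨fun _ => 0, fr n, bt_zero n, fr_meas n, fr_gs n, fun h' => absurd h' h⟩
  choose w1 s1 h1 h2 h3 h4 using key
  refine ⟨fun n _ t => w1 n t, s1, ⟨h1, h2, fun n => Eventually.of_forall (h3 n)⟩,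
    fun _ _ _ _ => rfl, fun ε hε => ?_⟩
  obtain ⟨N, hN⟩ := exists_nat_gt (1 / ε)
  filter_upwards [eventually_ge_atTop (N + 1)] with n hn
  have h5 := h4 n (by omega)
  have h6 : 1 / ((n : ℝ) + 1) < ε := by
    rw [div_lt_iff₀ (by positivity)]
    have h7 : (N : ℝ) ≤ n := by exact_mod_cast (by omega : N ≤ n)
    rw [div_lt_iff₀ hε] at hN
    nlinarith
  linarith

/-! ### Convergence to a covariant function -/

lemma Um.ki_zero_of {e : E} (hm : Um μ e m) (hs : Sq μ w σ) {h : (E → ℝ) → ℝ}
    (hh : Measurable h) (hh1 : ∀ᵐ J ∂(infinitePi fun _ : E => μ), h J = 1 ∨ h J = -1)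
    (hlim : Tendsto (fun n : ℕ => (∑ a ∈ pos n, (infinitePi fun _ : E => μ).real
      {J | bp (σ n J) (st a e) ≠ h (sh a J)}) / (n : ℝ) ^ 2) atTop (𝓝 0)) : ki μ m = 0 := by
  refine le_antisymm ?_ hm.ki_nonneg
  refine le_of_forall_pos_le_add fun ε hε => ?_
  set P := infinitePi fun _ : E => μ with hP
  set k : (E → ℝ) → ℝ := fun J => sg (h J) with hk
  have mk : Measurable k := sg_meas.comp hh
  have hk1 : ∀ J, |k J| ≤ 1 := fun J => by
    rcases sg_pm (h J) with h | h <;> simp only [hk] <;> rw [h] <;> norm_num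
  have hkh : ∀ᵐ J ∂P, k J = h J := hh1.mono fun J hJ => sg_of hJ
  -- a window function close to `k`
  have h1 := approx μ mk hk1 (I := fun M => ((bM M : Finset E) : Set E)) bM_exhaust
  rw [Metric.tendsto_atTop] at h1
  obtain ⟨M, hM⟩ := h1 (ε / 2) (by linarith)
  have h2 := hM M le_rfl
  rw [Real.dist_eq, sub_zero] at h2
  have h2' := lt_of_abs_lt h2
  set c : (E → ℝ) → ℝ := CE μ ((bM M : Finset E) : Set E) k with hc
  have mc : Measurable c := CE_meas μ mk _
  have hc1 : ∀ J, |c J| ≤ 1 := CE_le μ hk1 _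
  have iD : Integrable (fun J => |k J - c J|) P :=
    int_bdd μ (mk.sub mc).abs (C := 1 + 1) fun J => by
      rw [abs_abs]; exact (abs_sub _ _).trans (add_le_add (hk1 _) (hc1 _))
  have h4 : ∫ J, |k J - c J| ∂P ≤ ε / 2 := by
    have mp : Measurable fun p : (E → ℝ) × (E → ℝ) =>
        k (patch ((bM M : Finset E) : Set E)ᶜ p.1 p.2) := mk.comp (measurable_patch _)
    have i1 : Integrable (fun p : (E → ℝ) × (E → ℝ) =>
        |k p.1 - k (patch ((bM M : Finset E) : Set E)ᶜ p.1 p.2)|) (P.prod P) :=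
      pp_bdd μ ((mk.comp measurable_fst).sub mp).abs (C := 1 + 1) fun p => by
        rw [abs_abs]; exact (abs_sub _ _).trans (add_le_add (hk1 _) (hk1 _))
    refine le_trans ?_ h2'.le
    rw [integral_prod _ i1]
    refine integral_mono iD i1.integral_prod_left fun J => ?_
    simp only
    have iJ : Integrable (fun y => k (patch ((bM M : Finset E) : Set E)ᶜ J y)) P :=
      int_bdd μ (mp.comp (measurable_const.prodMk measurable_id)) fun y => hk1 _
    have e1 : k J - c J = ∫ y, (k J - k (patch ((bM M : Finset E) : Set E)ᶜ J y)) ∂P := by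
      rw [integral_sub (integrable_const _) iJ, integral_const, probReal_univ, one_smul]
      rfl
    rw [e1]
    exact abs_integral_le_integral_abs
  set f : (E → ℝ) → ℝ := fun J => sg (c J) with hf
  have hr : Rl (bM M) f := ⟨sg_meas.comp mc, fun J => sg_pm _, fun J J' hJ => by
    simp only [hf]; rw [hc, CE_dep μ _ k J J' hJ]⟩
  have h5 : P.real {J | f J ≠ k J} ≤ ε / 2 := by
    refine le_trans ?_ h4
    have hms : MeasurableSet {J | f J ≠ k J} := (measurableSet_eq_fun hr.meas mk).compl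
    have e1 : P.real {J | f J ≠ k J} =
        ∫ J, Set.indicator {J | f J ≠ k J} (fun _ => (1 : ℝ)) J ∂P := by
      rw [integral_indicator hms, setIntegral_const, smul_eq_mul, mul_one]
    rw [e1]
    refine integral_mono ((integrable_const _).indicator hms) iD fun J => ?_
    by_cases hJ : f J = k J
    · simp only
      rw [Set.indicator_of_notMem (by simpa using hJ)]
      exact abs_nonneg _
    · simp only
      rw [Set.indicator_of_mem (by simpa using hJ)]
      simp only [hf, hk] at hJ ⊢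
      rcases sg_pm (h J) with a | a <;> rcases sg_pm (c J) with b | b <;> rw [a, b] at hJ
      · exact absurd rfl hJ
      · rw [a]
        have h6 : c J < 0 := by
          by_contra h7
          unfold sg at b
          rw [if_pos (not_lt.1 h7)] at b
          norm_num at b
        rw [abs_of_pos (by linarith)]
        linarith
      · rw [a]
        have h6 : 0 ≤ c J := by
          by_contra h7
          unfold sg at b
          rw [if_neg h7] at b
          norm_num at b
        rw [abs_of_neg (by linarith)]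
        linarith
      · exact absurd rfl hJ
  have h6 := hm.rule_ge hs (g := fun _ _ => f) (fun _ _ => hr) (show 0 < ε / 4 by linarith)
  have h7 := hlim.eventually (gt_mem_nhds (show (0 : ℝ) < ε / 4 by linarith))
  obtain ⟨n, h6, h7, hn⟩ := (h6.and (h7.and (eventually_ge_atTop 1))).exists
  have h8 : Fl μ e (fun _ => f) (σ n) n ≤ ε / 2 + (∑ a ∈ pos n, P.real
      {J | bp (σ n J) (st a e) ≠ h (sh a J)}) / (n : ℝ) ^ 2 := by
    rw [← avg_const hn (ε / 2)]
    unfold Fl
    rw [← add_div, ← Finset.sum_add_distrib]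
    refine div_le_div_of_nonneg_right (Finset.sum_le_sum fun a _ => ?_) (sq_nonneg _)
    have h9 : P.real {J | f (sh a J) ≠ k (sh a J)} = P.real {J | f J ≠ k J} := by
      have hms : MeasurableSet {J | f J ≠ k J} := (measurableSet_eq_fun hr.meas mk).compl
      rw [measureReal_def, measureReal_def,
        ← (sh_law μ a).measure_preimage hms.nullMeasurableSet]
      rfl
    have h10 : P.real {J | f (sh a J) ≠ bp (σ n J) (st a e)} ≤
        P.real ({J | f (sh a J) ≠ k (sh a J)} ∪ {J | bp (σ n J) (st a e) ≠ h (sh a J)}) := by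
      refine ENNReal.toReal_mono (measure_ne_top _ _) (measure_mono_ae ?_)
      filter_upwards [(sh_law μ a).quasiMeasurePreserving.ae hkh] with J hJ hJ'
      by_contra hc
      have hc' : ¬ (f (sh a J) ≠ k (sh a J) ∨ bp (σ n J) (st a e) ≠ h (sh a J)) := hc
      rw [not_or, not_not, not_not] at hc'
      exact hJ' (hc'.1.trans (hJ.trans hc'.2.symm))
    have h11 := measureReal_union_le (μ := P) {J | f (sh a J) ≠ k (sh a J)}
      {J | bp (σ n J) (st a e) ≠ h (sh a J)}
    linarith
  have h9 := hm.ki_le (bM M)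
  linarith

end Pool.Agent.Helper24.EA
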